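import Pool.Agent.H17.Omega.CtmD

/-!
# Closure properties of a countable transitive set that imply ZFC
-/

set_option autoImplicit false
set_option linter.unusedVariables false
set_option linter.unusedSectionVars false
set_option linter.unusedSimpArgs false

universe u v w

namespace Pool.Agent.H52.GX

open Pool.Agent.H17.Omega Name CTM

/-- Closure properties that imply ZFC. -/
structure Cl (N : Set ZFSet.{u}) : Prop where
  ne : N.Nonempty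
  ctb : N.Countable
  tr : ∀ x ∈ N, ∀ y ∈ x, y ∈ N
  upair : ∀ x ∈ N, ∀ y ∈ N, ({x, y} : ZFSet.{u}) ∈ N
  sUn : ∀ x ∈ N, ZFSet.sUnion x ∈ N
  pow : ∀ x ∈ N, ∃ p ∈ N, ∀ z ∈ N, z ⊆ x → z ∈ p
  inf : omZ ∈ N
  sep : ∀ (φ : Fml) (k : ℕ) (f : ℕ → N) (a : N), ∃ b : N, ∀ z : N,
    z.1 ∈ b.1 ↔ z.1 ∈ a.1 ∧ Sat (SMem N) φ (upd f k z)
  coll : ∀ (φ : Fml) (f : ℕ → N) (a : N), ∃ b : N, ∀ x : N, x.1 ∈ a.1 →
    (∃ y : N, Sat (SMem N) φ (upd (upd f 0 x) 1 y)) →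
    ∃ y : N, y.1 ∈ b.1 ∧ Sat (SMem N) φ (upd (upd f 0 x) 1 y)
  ac : ∀ x ∈ N, (∀ y ∈ x, y ≠ ∅) → (∀ y ∈ x, ∀ z ∈ x, ∀ w, w ∈ y → w ∈ z → y = z) →
    ∃ t ∈ N, ∀ y ∈ x, ∃ z, ∀ w, (w ∈ y ∧ w ∈ t) ↔ w = z

variable {N : Set ZFSet.{u}} (h : Cl N)

include h

theorem Cl.ext' {a b : ZFSet.{u}} (ha : a ∈ N) (hb : b ∈ N) (h' : ∀ z : N, z.1 ∈ a ↔ z.1 ∈ b) :
    a = b := by
  apply ZFSet.ext
  intro z
  exact ⟨fun hz => (h' ⟨z, h.tr _ ha _ hz⟩).1 hz, fun hz => (h' ⟨z, h.tr _ hb _ hz⟩).2 hz⟩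

theorem Cl.m_ext : Models N axExt := by
  intro f x y hxy
  show (upd (upd f 0 x) 1 y) 0 = (upd (upd f 0 x) 1 y) 1
  rw [upd_same, upd_ne _ _ (by omega), upd_same]
  apply Subtype.ext
  apply h.ext' x.2 y.2
  intro z
  have h1 := hxy z
  have e0 : upd (upd (upd f 0 x) 1 y) 2 z 2 = z := upd_same _ _ _
  have e1 : upd (upd (upd f 0 x) 1 y) 2 z 0 = x := by
    rw [upd_ne _ _ (by omega), upd_ne _ _ (by omega), upd_same]
  have e2 : upd (upd (upd f 0 x) 1 y) 2 z 1 = y := by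
    rw [upd_ne _ _ (by omega), upd_same]
  simp only [Fml.iff, Sat, e0, e1, e2] at h1
  exact ⟨h1.1, h1.2⟩

theorem Cl.m_found : Models N axFound := by
  intro f x hx
  obtain ⟨y, hy⟩ := hx
  have hy' : y.1 ∈ x.1 := by
    have e0 : upd (upd f 0 x) 1 y 1 = y := upd_same _ _ _
    have e1 : upd (upd f 0 x) 1 y 0 = x := by rw [upd_ne _ _ (by omega), upd_same]
    simpa only [Sat, e0, e1] using hy
  obtain ⟨z, hz, hz'⟩ := ZFSet.regularity x.1 (by rintro h0; rw [h0] at hy'; exact ZFSet.notMem_empty _ hy')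
  refine ⟨⟨z, h.tr _ x.2 _ hz⟩, ?_, ?_⟩
  · show (upd (upd f 0 x) 1 ⟨z, h.tr _ x.2 _ hz⟩ 1).1 ∈ (upd (upd f 0 x) 1 ⟨z, h.tr _ x.2 _ hz⟩ 0).1
    rw [upd_same, upd_ne _ _ (by omega), upd_same]
    exact hz
  · intro w hw hw2
    have e0 : upd (upd (upd f 0 x) 1 ⟨z, h.tr _ x.2 _ hz⟩) 2 w 2 = w := upd_same _ _ _
    have e1 : upd (upd (upd f 0 x) 1 ⟨z, h.tr _ x.2 _ hz⟩) 2 w 0 = x := by
      rw [upd_ne _ _ (by omega), upd_ne _ _ (by omega), upd_same]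
    have e2 : upd (upd (upd f 0 x) 1 ⟨z, h.tr _ x.2 _ hz⟩) 2 w 1 = ⟨z, h.tr _ x.2 _ hz⟩ := by
      rw [upd_ne _ _ (by omega), upd_same]
    simp only [Sat, e0, e1, e2] at hw hw2
    have : w.1 ∈ x.1 ∩ z := ZFSet.mem_inter.2 ⟨hw, hw2⟩
    rw [hz'] at this
    exact ZFSet.notMem_empty _ this

theorem Cl.m_pair : Models N axPair := by
  intro f x y
  refine ⟨⟨_, h.upair x.1 x.2 y.1 y.2⟩, fun z => ?_⟩
  simp only [Fml.iff, Sat]
  simp [upd, Subtype.ext_iff]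

theorem Cl.m_union : Models N axUnion := by
  intro f x
  refine ⟨⟨_, h.sUn x.1 x.2⟩, fun z => ?_⟩
  constructor
  · intro h1
    simp only [Sat] at h1
    simp [upd] at h1
    obtain ⟨z1, hz1, hz2⟩ := h1
    refine ⟨⟨z1, h.tr _ x.2 _ hz1⟩, ?_, ?_⟩
    · simp [Sat, upd]; exact hz1
    · simp [Sat, upd]; exact hz2
  · rintro ⟨z1, hz1, hz2⟩
    simp [Sat, upd] at hz1 hz2 ⊢
    exact ⟨z1.1, hz1, hz2⟩

theorem Cl.m_power : Models N axPower := by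
  intro f x
  obtain ⟨p, hp, hp'⟩ := h.pow x.1 x.2
  obtain ⟨b, hb⟩ := h.sep (.all 3 (.imp (.mem 3 2) (.mem 3 0))) 2 (upd f 0 x) ⟨p, hp⟩
  refine ⟨b, fun z => ?_⟩
  have e : Sat (SMem N) (.all 3 (.imp (.mem 3 2) (.mem 3 0))) (upd (upd (upd f 0 x) 1 b) 2 z) ↔
      z.1 ⊆ x.1 := by
    constructor
    · intro h1 w hw
      have := h1 ⟨w, h.tr _ z.2 _ hw⟩
      simp [Sat, upd] at this
      exact this hw
    · intro h1 w hw
      simp [Sat, upd] at hw ⊢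
      exact h1 hw
  have e' : Sat (SMem N) (.all 3 (.imp (.mem 3 2) (.mem 3 0))) (upd (upd f 0 x) 2 z) ↔
      z.1 ⊆ x.1 := by
    constructor
    · intro h1 w hw
      have := h1 ⟨w, h.tr _ z.2 _ hw⟩
      simp [Sat, upd] at this
      exact this hw
    · intro h1 w hw
      simp [Sat, upd] at hw ⊢
      exact h1 hw
  have hb' : z.1 ∈ b.1 ↔ z.1 ⊆ x.1 := by
    rw [hb, e']
    exact ⟨fun h1 => h1.2, fun h1 => ⟨hp' z.1 z.2 h1, h1⟩⟩
  have e2 : Sat (SMem N) (.mem 2 1) (upd (upd (upd f 0 x) 1 b) 2 z) ↔ z.1 ∈ b.1 := by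
    simp [Sat, upd]
  exact ⟨fun h1 => e.2 (hb'.1 (e2.1 h1)), fun h1 => e2.2 (hb'.2 (e.1 h1))⟩

theorem Cl.m_inf : Models N axInf := by
  intro f
  have hnat : ∀ n, natZ.{u} n ∈ N := fun n => h.tr _ h.inf _ (natZ_mem_omZ n)
  refine ⟨⟨omZ, h.inf⟩, ⟨⟨∅, hnat 0⟩, ?_, ?_⟩, ?_⟩
  · simp [Sat, upd]
    exact natZ_mem_omZ 0
  · intro z hz
    simp [Sat, upd] at hz
  · intro y hy
    simp only [Sat] at hy
    simp [upd] at hy
    obtain ⟨n, hn⟩ := mem_omZ.1 hy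
    refine ⟨⟨natZ (n + 1), hnat (n + 1)⟩, ?_, ?_⟩
    · simp [Sat, upd]
      exact natZ_mem_omZ (n + 1)
    · intro z
      simp only [Fml.iff, Sat]
      simp [upd, Subtype.ext_iff, natZ, hn]
      tauto

theorem Cl.m_sep (φ : Fml) : Models N (axSep φ) := by
  intro f
  have hn0 : 1 ≤ max φ.bd 1 := le_max_right _ _
  have hn1 : φ.bd ≤ max φ.bd 1 := le_max_left _ _
  show Sat (SMem N) (.all (max φ.bd 1) (.ex (max φ.bd 1 + 1) (.all 0
    (.iff (.mem 0 (max φ.bd 1 + 1)) (.and (.mem 0 (max φ.bd 1)) φ))))) f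
  generalize max φ.bd 1 = n at hn0 hn1 ⊢
  intro a
  obtain ⟨b, hb⟩ := h.sep φ 0 f a
  refine ⟨b, fun z => ?_⟩
  have e0 : upd (upd (upd f n a) (n + 1) b) 0 z 0 = z := upd_same _ _ _
  have e1 : upd (upd (upd f n a) (n + 1) b) 0 z n = a := by
    rw [upd_ne _ _ (by omega), upd_ne _ _ (by omega), upd_same]
  have e2 : upd (upd (upd f n a) (n + 1) b) 0 z (n + 1) = b := by
    rw [upd_ne _ _ (by omega), upd_same]
  have e3 : Sat (SMem N) φ (upd (upd (upd f n a) (n + 1) b) 0 z) ↔ Sat (SMem N) φ (upd f 0 z) := by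
    refine Sat.congr fun i hi => ?_
    by_cases h0 : i = 0
    · subst h0; rw [upd_same, upd_same]
    · rw [upd_ne _ _ h0, upd_ne _ _ h0, upd_ne _ _ (by omega), upd_ne _ _ (by omega)]
  simp only [Fml.iff, Sat, e0, e1, e2, e3]
  exact ⟨(hb z).1, (hb z).2⟩

theorem Cl.m_repl (φ : Fml) : Models N (axRepl φ) := by
  intro f
  have hn0 : 2 ≤ max φ.bd 2 := le_max_right _ _
  have hn1 : φ.bd ≤ max φ.bd 2 := le_max_left _ _
  show Sat (SMem N) (.all (max φ.bd 2) (.imp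
    (.all 0 (.imp (.mem 0 (max φ.bd 2)) (.ex (max φ.bd 2 + 1) (.all 1
      (.iff φ (.eq 1 (max φ.bd 2 + 1)))))))
    (.ex (max φ.bd 2 + 1) (.all 1 (.iff (.mem 1 (max φ.bd 2 + 1))
      (.ex 0 (.and (.mem 0 (max φ.bd 2)) φ))))))) f
  generalize max φ.bd 2 = n at hn0 hn1 ⊢
  intro a hfun
  obtain ⟨b0, hb0⟩ := h.coll φ f a
  obtain ⟨b, hb⟩ := h.sep (.ex 0 (.and (.mem 0 n) φ)) 1 (upd f n a) b0
  have hF : ∀ x : N, x.1 ∈ a.1 → ∃ y0 : N, ∀ y : N, (Sat (SMem N) φ (upd (upd f 0 x) 1 y) ↔ y = y0) := by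
    intro x hx
    obtain ⟨y0, h1⟩ := hfun x (by
      show (upd (upd f n a) 0 x 0).1 ∈ (upd (upd f n a) 0 x n).1
      rw [upd_same, upd_ne _ _ (by omega), upd_same]
      exact hx)
    refine ⟨y0, fun y => ?_⟩
    have h2 := h1 y
    have e1 : upd (upd (upd (upd f n a) 0 x) (n + 1) y0) 1 y 1 = y := upd_same _ _ _
    have e2 : upd (upd (upd (upd f n a) 0 x) (n + 1) y0) 1 y (n + 1) = y0 := by
      rw [upd_ne _ _ (by omega), upd_same]
    have e3 : Sat (SMem N) φ (upd (upd (upd (upd f n a) 0 x) (n + 1) y0) 1 y) ↔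
        Sat (SMem N) φ (upd (upd f 0 x) 1 y) := by
      refine Sat.congr fun i hi => ?_
      by_cases h1 : i = 1
      · subst h1; rw [upd_same, upd_same]
      · by_cases h0 : i = 0
        · subst h0
          rw [upd_ne _ _ (by omega), upd_ne _ _ (by omega), upd_same, upd_ne _ _ (by omega), upd_same]
        · rw [upd_ne _ _ h1, upd_ne _ _ (by omega), upd_ne _ _ h0, upd_ne _ _ (by omega),
            upd_ne _ _ h1, upd_ne _ _ h0]
    simp only [Fml.iff, Sat, e1, e2, e3] at h2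
    exact ⟨h2.1, h2.2⟩
  refine ⟨b, fun y => ?_⟩
  have e1 : upd (upd (upd f n a) (n + 1) b) 1 y 1 = y := upd_same _ _ _
  have e2 : upd (upd (upd f n a) (n + 1) b) 1 y (n + 1) = b := by
    rw [upd_ne _ _ (by omega), upd_same]
  have e3 : ∀ x, upd (upd (upd (upd f n a) (n + 1) b) 1 y) 0 x 0 = x := fun x => upd_same _ _ _
  have e4 : ∀ x, upd (upd (upd (upd f n a) (n + 1) b) 1 y) 0 x n = a := fun x => by
    rw [upd_ne _ _ (by omega), upd_ne _ _ (by omega), upd_ne _ _ (by omega), upd_same]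
  have e5 : ∀ x, Sat (SMem N) φ (upd (upd (upd (upd f n a) (n + 1) b) 1 y) 0 x) ↔
      Sat (SMem N) φ (upd (upd f 0 x) 1 y) := by
    intro x
    refine Sat.congr fun i hi => ?_
    by_cases h0 : i = 0
    · subst h0; rw [upd_same, upd_ne _ _ (by omega), upd_same]
    · by_cases h1 : i = 1
      · subst h1
        rw [upd_ne _ _ (by omega), upd_same, upd_same]
      · rw [upd_ne _ _ h0, upd_ne _ _ h1, upd_ne _ _ (by omega), upd_ne _ _ (by omega),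
          upd_ne _ _ h1, upd_ne _ _ h0]
  have e6 : Sat (SMem N) (.ex 0 (.and (.mem 0 n) φ)) (upd (upd f n a) 1 y) ↔
      ∃ x : N, x.1 ∈ a.1 ∧ Sat (SMem N) φ (upd (upd f 0 x) 1 y) := by
    refine exists_congr fun x => ?_
    have e7 : upd (upd (upd f n a) 1 y) 0 x 0 = x := upd_same _ _ _
    have e8 : upd (upd (upd f n a) 1 y) 0 x n = a := by
      rw [upd_ne _ _ (by omega), upd_ne _ _ (by omega), upd_same]
    have e9 : Sat (SMem N) φ (upd (upd (upd f n a) 1 y) 0 x) ↔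
        Sat (SMem N) φ (upd (upd f 0 x) 1 y) := by
      refine Sat.congr fun i hi => ?_
      by_cases h0 : i = 0
      · subst h0; rw [upd_same, upd_ne _ _ (by omega), upd_same]
      · by_cases h1 : i = 1
        · subst h1
          rw [upd_ne _ _ (by omega), upd_same, upd_same]
        · rw [upd_ne _ _ h0, upd_ne _ _ h1, upd_ne _ _ (by omega), upd_ne _ _ h1, upd_ne _ _ h0]
    simp only [Sat, e7, e8, e9]
  have hb' : y.1 ∈ b.1 ↔ ∃ x : N, x.1 ∈ a.1 ∧ Sat (SMem N) φ (upd (upd f 0 x) 1 y) := by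
    rw [hb, e6]
    refine ⟨fun h1 => h1.2, fun h1 => ⟨?_, h1⟩⟩
    obtain ⟨x, hx, h2⟩ := h1
    obtain ⟨y', hy', h3⟩ := hb0 x hx ⟨y, h2⟩
    obtain ⟨y0, h4⟩ := hF x hx
    rw [(h4 y).1 h2, ← (h4 y').1 h3]
    exact hy'
  simp only [Fml.iff, Sat, e1, e2, e3, e4, e5]
  exact ⟨hb'.1, hb'.2⟩

theorem Cl.m_choice : Models N axChoice := by
  intro f x hx
  obtain ⟨h1, h2⟩ := hx
  obtain ⟨t, ht, h3⟩ := h.ac x.1 x.2 (by
    intro y hy h0
    obtain ⟨z, hz⟩ := h1 ⟨y, h.tr _ x.2 _ hy⟩ (by simp [Sat, upd, hy])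
    simp [Sat, upd, h0] at hz) (by
    intro y hy z hz w hw hw'
    have := h2 ⟨y, h.tr _ x.2 _ hy⟩ ⟨z, h.tr _ x.2 _ hz⟩ (by
      refine ⟨by simp [Sat, upd, hy], by simp [Sat, upd, hz],
        ⟨w, h.tr _ (h.tr _ x.2 _ hy) _ hw⟩, by simp [Sat, upd, hw], by simp [Sat, upd, hw']⟩)
    simpa [Sat, upd] using this)
  refine ⟨⟨t, ht⟩, fun y hy => ?_⟩
  have hy' : y.1 ∈ x.1 := by simpa [Sat, upd] using hy
  obtain ⟨z, hz⟩ := h3 y.1 hy'
  have hzy : z ∈ y.1 := ((hz z).2 rfl).1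
  refine ⟨⟨z, h.tr _ y.2 _ hzy⟩, fun w => ?_⟩
  have := hz w.1
  simp only [Fml.iff, Sat]
  simp [upd, Subtype.ext_iff]
  exact ⟨fun h4 h5 => this.1 ⟨h4, h5⟩, fun h4 => this.2 h4⟩

theorem Cl.ctm : CTM N where
  nonempty := h.ne
  countable := h.ctb
  trans := h.tr
  zfc := by
    intro ψ hψ
    cases hψ with
    | ext => exact h.m_ext
    | found => exact h.m_found
    | pair => exact h.m_pair
    | union => exact h.m_union
    | power => exact h.m_power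
    | inf => exact h.m_inf
    | choice => exact h.m_choice
    | sep φ => exact h.m_sep φ
    | repl φ => exact h.m_repl φ

end Pool.Agent.H52.GX
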