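import Pool.Agent.H17.Omega.Tukey
import Pool.Agent.H17.Omega.MForce
import Pool.Agent.H17.Omega.CtmM
import Pool.Agent.H17.Omega.CtmD

/-!
# Generic extensions of countable transitive models: values of names

`M` is a countable transitive model of ZFC, `Q` a partial order, coded in `M` by `c`
(`PosetIn M Q c`), `G ⊆ Q` a filter that is generic over `M`. Every set is a name (`nm c τ`);
`ev c G τ` is its value, `Ext M c G = M[G]` is the set of all values of names in `M`.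
-/

set_option autoImplicit false
set_option linter.unusedVariables false
set_option linter.unusedSectionVars false
set_option linter.unusedSimpArgs false

universe u v w

namespace Pool.Agent.H52.GX

open Pool.Agent.H17.Omega Name CTM

section

variable {Q : Type u}

instance small_ev (c : Q → ZFSet.{u}) (G : Set Q) (τ : ZFSet.{u}) :
    Small.{u} {t : ZFSet.{u} × Q // ZFSet.pair t.1 (c t.2) ∈ τ ∧ t.2 ∈ G} :=
  small_of_injective (β := {t : ZFSet.{u} × Q // ZFSet.pair t.1 (c t.2) ∈ τ})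
    (f := fun t => ⟨t.1, t.2.1⟩) fun a b h => by
      simp only [Subtype.mk.injEq] at h
      exact Subtype.ext h

/-- The value of the name `τ`: the set of the values of the `σ` with `(σ, c p) ∈ τ`, `p ∈ G`. -/
noncomputable def ev (c : Q → ZFSet.{u}) (G : Set Q) (τ : ZFSet.{u}) : ZFSet.{u} :=
  ZFSet.range (fun i : Shrink.{u} {t : ZFSet.{u} × Q // ZFSet.pair t.1 (c t.2) ∈ τ ∧ t.2 ∈ G} =>
    ev c G ((equivShrink _).symm i).1.1)
termination_by τ.rank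
decreasing_by
  have h := ((equivShrink _).symm i).2
  exact rank_fst_lt h.1

variable {c : Q → ZFSet.{u}} {G : Set Q}

theorem mem_ev {τ z : ZFSet.{u}} : z ∈ ev c G τ ↔
    ∃ σ p, ZFSet.pair σ (c p) ∈ τ ∧ p ∈ G ∧ ev c G σ = z := by
  rw [ev, ZFSet.mem_range]
  constructor
  · rintro ⟨i, rfl⟩
    exact ⟨_, _, ((equivShrink _).symm i).2.1, ((equivShrink _).symm i).2.2, rfl⟩
  · rintro ⟨σ, p, h1, h2, rfl⟩
    refine ⟨equivShrink _ ⟨(σ, p), h1, h2⟩, ?_⟩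
    simp [Equiv.symm_apply_apply]

theorem ev_mem {τ σ : ZFSet.{u}} {p : Q} (h : ZFSet.pair σ (c p) ∈ τ) (hp : p ∈ G) :
    ev c G σ ∈ ev c G τ := mem_ev.2 ⟨σ, p, h, hp, rfl⟩

theorem rank_ev_le (τ : ZFSet.{u}) : (ev c G τ).rank ≤ τ.rank := by
  rw [ZFSet.rank_le_iff]
  intro z hz
  obtain ⟨σ, p, h1, h2, rfl⟩ := mem_ev.1 hz
  exact (rank_ev_le σ).trans_lt (rank_fst_lt h1)
termination_by τ.rank
decreasing_by exact rank_fst_lt h1

end

section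

variable {Q : Type u} [PartialOrder Q]

/-- `G` is a filter of `Q` that meets every dense subset of `Q` that (coded by `c`) is in `M`. -/
structure GenF (M : Set ZFSet.{u}) (c : Q → ZFSet.{u}) (G : Set Q) : Prop where
  ne : G.Nonempty
  up : ∀ p ∈ G, ∀ q, p ≤ q → q ∈ G
  dir : ∀ p ∈ G, ∀ q ∈ G, ∃ r ∈ G, r ≤ p ∧ r ≤ q
  gen : ∀ D ∈ M, (∀ p, ∃ q ≤ p, c q ∈ D) → ∃ p ∈ G, c p ∈ D

/-- The generic extension `M[G]`. -/
def Ext (M : Set ZFSet.{u}) (c : Q → ZFSet.{u}) (G : Set Q) : Set ZFSet.{u} := ev c G '' M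

variable {M : Set ZFSet.{u}} {c : Q → ZFSet.{u}} {G : Set Q}

theorem ev_mem_Ext {τ : ZFSet.{u}} (h : τ ∈ M) : ev c G τ ∈ Ext M c G := ⟨τ, h, rfl⟩

theorem Ext_countable (hM : CTM M) : (Ext M c G).Countable := hM.countable.image _

theorem Ext_trans (hM : CTM M) {x y : ZFSet.{u}} (hx : x ∈ Ext M c G) (hy : y ∈ x) :
    y ∈ Ext M c G := by
  obtain ⟨τ, hτ, rfl⟩ := hx
  obtain ⟨σ, p, h1, h2, rfl⟩ := mem_ev.1 hy
  exact ⟨σ, (hM.of_pair_mem (hM.mem_of_mem hτ h1)).1, rfl⟩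

/-- Generic filters exist (`M` is countable). -/
theorem exists_genF (hM : M.Countable) (c : Q → ZFSet.{u}) (p : Q) :
    ∃ G : Set Q, GenF M c G ∧ p ∈ G := by
  obtain hM0 | hM0 := M.eq_empty_or_nonempty
  · subst hM0
    refine ⟨{q | p ≤ q}, ⟨⟨p, le_rfl⟩, fun a ha q hq => le_trans ha hq,
      fun a ha b hb => ⟨p, le_rfl, ha, hb⟩, fun D hD => hD.elim⟩, le_rfl⟩
  obtain ⟨e, he⟩ := hM.exists_eq_range hM0
  have step : ∀ (n : ℕ) (q : Q), ∃ r ≤ q, (∀ a, ∃ b ≤ a, c b ∈ e n) → c r ∈ e n := by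
    intro n q
    by_cases h : ∀ a, ∃ b ≤ a, c b ∈ e n
    · obtain ⟨r, hr, h1⟩ := h q
      exact ⟨r, hr, fun _ => h1⟩
    · exact ⟨q, le_rfl, fun h' => (h h').elim⟩
  choose s hs1 hs2 using step
  let q : ℕ → Q := fun n => Nat.rec p (fun n q => s n q) n
  have hq : ∀ n, q (n + 1) ≤ q n := fun n => hs1 n (q n)
  have hanti : Antitone q := antitone_nat_of_succ_le hq
  refine ⟨{x | ∃ n, q n ≤ x}, ⟨⟨p, 0, le_rfl⟩, fun a ⟨n, hn⟩ b hb => ⟨n, hn.trans hb⟩, ?_, ?_⟩,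
    ⟨0, le_rfl⟩⟩
  · rintro a ⟨n, hn⟩ b ⟨m, hm⟩
    exact ⟨q (max n m), ⟨_, le_rfl⟩, (hanti (le_max_left _ _)).trans hn,
      (hanti (le_max_right _ _)).trans hm⟩
  · intro D hD hdense
    rw [he] at hD
    obtain ⟨n, rfl⟩ := hD
    exact ⟨q (n + 1), ⟨n + 1, le_rfl⟩, hs2 n (q n) hdense⟩

namespace GenF

variable (hG : GenF M c G)

include hG

/-- A generic filter meets every set that is dense below one of its elements. -/
theorem gen_below (hM : CTM M) (hQ : PosetIn M Q c) {D : ZFSet.{u}} (hD : D ∈ M) {p : Q} (hp : p ∈ G)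
    (h : ∀ r ≤ p, ∃ q ≤ r, c q ∈ D) : ∃ q ∈ G, c q ∈ D := by
  obtain ⟨P, R, hPR⟩ := hQ.exists_PR
  have hP := hPR.hP
  have hR := hPR.hR
  have hcp : c p ∈ M := hPR.c_mem_N hM p
  have hdf : hM.Dfn (fun v : Fin 1 → M => (v 0).1 ∈ (⟨D, hD⟩ : M).1 ∨ ∀ r : M,
      ZFSet.pair r.1 (v 0).1 ∈ (⟨R, hR⟩ : M).1 → ¬ ZFSet.pair r.1 (⟨c p, hcp⟩ : M).1 ∈ (⟨R, hR⟩ : M).1) := by
    (repeat' first
        | exact DT.var _ | exact DT.last | exact DT.const _ | assumption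
        | refine Dfn.pairMem ?_ ?_ ?_ | refine Dfn.isPair ?_ ?_ ?_ | refine Dfn.mem ?_ ?_
        | refine Dfn.eqv ?_ ?_ | refine Dfn.eq ?_ ?_ | refine Dfn.subset ?_ ?_
        | refine Dfn.isEmpty ?_ | refine Dfn.isTrans ?_ | refine Dfn.isOrd ?_
        | refine Dfn.isNat ?_ | refine Dfn.and ?_ ?_ | refine Dfn.or ?_ ?_ | refine Dfn.iff ?_ ?_
        | refine Dfn.not ?_ | refine Dfn.imp ?_ ?_ | refine Dfn.all ?_ | refine Dfn.ex ?_
        | exact Dfn.false')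
  obtain ⟨D', hD', h1⟩ := hM.exists_sep (P := fun x => x.1 ∈ (⟨D, hD⟩ : M).1 ∨ ∀ r : M,
      ZFSet.pair r.1 x.1 ∈ (⟨R, hR⟩ : M).1 → ¬ ZFSet.pair r.1 (⟨c p, hcp⟩ : M).1 ∈ (⟨R, hR⟩ : M).1) hdf hP
  have h2 : ∀ q, c q ∈ D' ↔ (c q ∈ D ∨ ∀ r, r ≤ q → ¬ r ≤ p) := by
    intro q
    rw [h1]
    constructor
    · rintro ⟨_, _, h3 | h3⟩
      · exact Or.inl h3
      · refine Or.inr fun r hr hrp => h3 ⟨c r, hPR.c_mem_N hM r⟩ (hPR.le_iff.2 hr) (hPR.le_iff.2 hrp)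
    · intro h3
      refine ⟨hPR.c_mem_P q, hPR.c_mem_N hM q, ?_⟩
      rcases h3 with h3 | h3
      · exact Or.inl h3
      · refine Or.inr fun r hr hrp => ?_
        obtain ⟨r1, q1, h4, h5, h6⟩ := hPR.of_pair_mem hr
        have h6 := hPR.inj h6
        subst h6
        rw [h5] at hrp
        exact h3 r1 h4 (hPR.le_iff.1 hrp)
  obtain ⟨q, hq, hqD⟩ := hG.gen D' hD' (by
    intro a
    by_cases ha : ∃ r, r ≤ a ∧ r ≤ p
    · obtain ⟨r, hra, hrp⟩ := ha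
      obtain ⟨q, hq, hqD⟩ := h r hrp
      exact ⟨q, hq.trans hra, (h2 q).2 (Or.inl hqD)⟩
    · push Not at ha
      exact ⟨a, le_rfl, (h2 a).2 (Or.inr fun r hr hrp => ha r hr hrp)⟩)
  rcases (h2 q).1 hqD with h3 | h3
  · exact ⟨q, hq, h3⟩
  · obtain ⟨r, hr, hr1, hr2⟩ := hG.dir q hq p hp
    exact (h3 r hr1 hr2).elim

/-- A subset of `P` that is definable in the model. -/
theorem gen_dfn (hM : CTM M) (hQ : PosetIn M Q c) {D : M → Prop}
    (hD : hM.Dfn (fun v : Fin 1 → M => D (v 0))) {p : Q} (hp : p ∈ G)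
    (h : ∀ r ≤ p, ∃ q ≤ r, ∀ z : M, z.1 = c q → D z) : ∃ q ∈ G, ∀ z : M, z.1 = c q → D z := by
  obtain ⟨P, R, hPR⟩ := hQ.exists_PR
  obtain ⟨D', hD', h1⟩ := hM.exists_sep hD hPR.hP
  have h2 : ∀ q, c q ∈ D' ↔ ∀ z : M, z.1 = c q → D z := by
    intro q
    rw [h1]
    constructor
    · rintro ⟨_, h3, h4⟩ z hz
      have : z = ⟨c q, h3⟩ := Subtype.ext hz
      rw [this]; exact h4
    · exact fun h3 => ⟨hPR.c_mem_P q, hPR.c_mem_N hM q, h3 _ rfl⟩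
  obtain ⟨q, hq, hqD⟩ := hG.gen_below hM hQ hD' hp (fun r hr => by
    obtain ⟨q, hq, h3⟩ := h r hr
    exact ⟨q, hq, (h2 q).2 h3⟩)
  exact ⟨q, hq, (h2 q).1 hqD⟩

/-- Two elements of a generic filter are compatible, also in the filter. -/
theorem compat {p q : Q} (hp : p ∈ G) (hq : q ∈ G) : ∃ r ∈ G, r ≤ p ∧ r ≤ q := hG.dir p hp q hq

end GenF

end

end Pool.Agent.H52.GX
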