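import Pool.Agent.H52.GX.Gen

/-!
# Generic extensions: ordinals, minimality, partial orders given by sets
-/

set_option autoImplicit false
set_option linter.unusedVariables false
set_option linter.unusedSectionVars false
set_option linter.unusedSimpArgs false

universe u v w

namespace Pool.Agent.H52.GX

open Pool.Agent.H17.Omega Name CTM

variable {Q : Type u} [PartialOrder Q] {M : Set ZFSet.{u}} {c : Q → ZFSet.{u}} {G : Set Q}

/-- The extension has the same ordinals. -/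
theorem toZFSet_mem_Ext (hM : CTM M) (hQ : PosetIn M Q c) (hG : G.Nonempty) {o : Ordinal.{u}} :
    o.toZFSet ∈ Ext M c G ↔ o.toZFSet ∈ M := by
  constructor
  · rintro ⟨τ, hτ, h⟩
    have h1 : (ev c G τ).rank ≤ τ.rank := rank_ev_le τ
    rw [h, Ordinal.rank_toZFSet] at h1
    exact hM.toZFSet_mem_of_le h1 (hM.rank_mem hτ)
  · exact fun h => subset_Ext hM hQ hG h

/-- Minimality of the generic extension. -/
theorem Ext_subset {N : Set ZFSet.{u}} (hN : CTM N) (hMN : M ⊆ N) {g : ZFSet.{u}} (hg : g ∈ N)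
    (hg' : ∀ z, z ∈ g ↔ ∃ p ∈ G, z = c p) (hc : Function.Injective c) : Ext M c G ⊆ N := by
  have hR : hN.Dfn (fun v : Fin 2 → N => ∃ w : N, w.1 ∈ (⟨g, hg⟩ : N).1 ∧
      ZFSet.pair (v 0).1 w.1 ∈ (v 1).1) := by (repeat' first
          | exact DT.var _ | exact DT.last | exact DT.const _ | assumption
          | refine Dfn.pairMem ?_ ?_ ?_ | refine Dfn.isPair ?_ ?_ ?_ | refine Dfn.mem ?_ ?_
          | refine Dfn.eqv ?_ ?_ | refine Dfn.eq ?_ ?_ | refine Dfn.subset ?_ ?_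
          | refine Dfn.isEmpty ?_ | refine Dfn.isTrans ?_ | refine Dfn.isOrd ?_
          | refine Dfn.isNat ?_ | refine Dfn.and ?_ ?_ | refine Dfn.or ?_ ?_
          | refine Dfn.iff ?_ ?_ | refine Dfn.not ?_ | refine Dfn.imp ?_ ?_ | refine Dfn.all ?_
          | refine Dfn.ex ?_ | exact Dfn.false')
  refine Exists.elim (recursion (hN := hN) (R := fun x y : N => ∃ w : N, w.1 ∈ (⟨g, hg⟩ : N).1 ∧
      ZFSet.pair x.1 w.1 ∈ y.1) (𝒢 := fun x r v => ∀ z : N, z.1 ∈ v.1 ↔ ∃ y, r y z) hR ?_ ?_ ?_ ?_ ?_) ?_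
  · show hN.Dfn (fun v : Fin 3 → N => ∀ z : N, z.1 ∈ (v 2).1 ↔ ∃ y : N,
      (∃ w : N, w.1 ∈ (⟨g, hg⟩ : N).1 ∧ ZFSet.pair y.1 w.1 ∈ (v 0).1) ∧ ZFSet.pair y.1 z.1 ∈ (v 1).1)
    (repeat' first
        | exact DT.var _ | exact DT.last | exact DT.const _ | assumption
        | refine Dfn.pairMem ?_ ?_ ?_ | refine Dfn.isPair ?_ ?_ ?_ | refine Dfn.mem ?_ ?_
        | refine Dfn.eqv ?_ ?_ | refine Dfn.eq ?_ ?_ | refine Dfn.subset ?_ ?_
        | refine Dfn.isEmpty ?_ | refine Dfn.isTrans ?_ | refine Dfn.isOrd ?_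
        | refine Dfn.isNat ?_ | refine Dfn.and ?_ ?_ | refine Dfn.or ?_ ?_ | refine Dfn.iff ?_ ?_
        | refine Dfn.not ?_ | refine Dfn.imp ?_ ?_ | refine Dfn.all ?_ | refine Dfn.ex ?_
        | exact Dfn.false')
  · intro x
    obtain ⟨b, hb, hb'⟩ := hN.exists_sep (P := fun z => ∃ w : N, w.1 ∈ (⟨g, hg⟩ : N).1 ∧
      ZFSet.pair z.1 w.1 ∈ x.1) (by (repeat' first
          | exact DT.var _ | exact DT.last | exact DT.const _ | assumption
          | refine Dfn.pairMem ?_ ?_ ?_ | refine Dfn.isPair ?_ ?_ ?_ | refine Dfn.mem ?_ ?_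
          | refine Dfn.eqv ?_ ?_ | refine Dfn.eq ?_ ?_ | refine Dfn.subset ?_ ?_
          | refine Dfn.isEmpty ?_ | refine Dfn.isTrans ?_ | refine Dfn.isOrd ?_
          | refine Dfn.isNat ?_ | refine Dfn.and ?_ ?_ | refine Dfn.or ?_ ?_
          | refine Dfn.iff ?_ ?_ | refine Dfn.not ?_ | refine Dfn.imp ?_ ?_ | refine Dfn.all ?_
          | refine Dfn.ex ?_ | exact Dfn.false')) (hN.sUnion_mem (hN.sUnion_mem x.2))
    refine ⟨b, hb, fun y => ?_⟩
    rw [hb']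
    constructor
    · rintro ⟨_, _, h⟩; exact h
    · intro h
      refine ⟨?_, y.2, h⟩
      obtain ⟨w, _, hw⟩ := h
      exact (mem_sUnion_sUnion_pair hw).1
  · exact Subrelation.wf (fun {x y} h => by
      obtain ⟨w, _, hw⟩ := h
      exact rank_fst_lt hw) (InvImage.wf (fun x : N => x.1.rank) (wellFounded_lt (α := Ordinal.{u})))
  · intro x r v v' h1 h2
    exact Subtype.ext (hN.ext' v.2 v'.2 fun z => (h1 z).trans (h2 z).symm)
  · intro x f hd hu
    obtain ⟨b, hb, hb'⟩ := hN.exists_sep (P := fun z => ∃ y : N,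
      (∃ w : N, w.1 ∈ (⟨g, hg⟩ : N).1 ∧ ZFSet.pair y.1 w.1 ∈ x.1) ∧ ZFSet.pair y.1 z.1 ∈ f.1) (by (repeat' first
          | exact DT.var _ | exact DT.last | exact DT.const _ | assumption
          | refine Dfn.pairMem ?_ ?_ ?_ | refine Dfn.isPair ?_ ?_ ?_ | refine Dfn.mem ?_ ?_
          | refine Dfn.eqv ?_ ?_ | refine Dfn.eq ?_ ?_ | refine Dfn.subset ?_ ?_
          | refine Dfn.isEmpty ?_ | refine Dfn.isTrans ?_ | refine Dfn.isOrd ?_
          | refine Dfn.isNat ?_ | refine Dfn.and ?_ ?_ | refine Dfn.or ?_ ?_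
          | refine Dfn.iff ?_ ?_ | refine Dfn.not ?_ | refine Dfn.imp ?_ ?_ | refine Dfn.all ?_
          | refine Dfn.ex ?_ | exact Dfn.false'))
      (hN.sUnion_mem (hN.sUnion_mem f.2))
    refine ⟨⟨b, hb⟩, fun z => ?_⟩
    show z.1 ∈ b ↔ _
    rw [hb']
    constructor
    · rintro ⟨_, _, h⟩; exact h
    · intro h
      refine ⟨?_, z.2, h⟩
      obtain ⟨y, _, h1⟩ := h
      exact (mem_sUnion_sUnion_pair h1).2
  · intro F hF
    have hF2 := hF.2
    have key : ∀ (o : Ordinal.{u}) (τ : N), τ.1.rank = o → (F τ).1 = ev c G τ.1 := by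
      intro o
      induction o using WellFoundedLT.induction with
      | ind o ih =>
      intro τ ho
      ext z
      rw [mem_ev]
      constructor
      · intro hz
        have hzN := hN.mem_of_mem (F τ).2 hz
        obtain ⟨y, ⟨w, hw, h1⟩, h2⟩ := (hF2 τ ⟨z, hzN⟩).1 hz
        obtain ⟨p, hp, hwp⟩ := (hg' _).1 hw
        rw [hwp] at h1
        refine ⟨y.1, p, h1, hp, ?_⟩
        rw [← ih _ (by rw [← ho]; exact rank_fst_lt h1) y rfl, h2]
      · rintro ⟨σ, p, h1, hp, rfl⟩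
        have hσ := (hN.of_pair_mem (hN.mem_of_mem τ.2 h1)).1
        have hcp := (hN.of_pair_mem (hN.mem_of_mem τ.2 h1)).2
        have h2 := ih _ (by rw [← ho]; exact rank_fst_lt h1) ⟨σ, hσ⟩ rfl
        rw [← h2]
        exact (hF2 τ (F ⟨σ, hσ⟩)).2 ⟨⟨σ, hσ⟩, ⟨⟨c p, hcp⟩, (hg' _).2 ⟨p, hp, rfl⟩, h1⟩, rfl⟩
    rintro _ ⟨τ, hτ, rfl⟩
    rw [← key _ ⟨τ, hMN hτ⟩ rfl]
    exact (F _).2

/-- The elements of a set, as a type in `Type u`. -/
def Pt (P : ZFSet.{u}) : Type u := Shrink.{u} {x : ZFSet.{u} // x ∈ P}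

/-- A partial order in `M` given by sets, as a type. -/
theorem exists_poset {M : Set ZFSet.{u}} {P R : ZFSet.{u}} (hP : P ∈ M) (hR : R ∈ M)
    (hRP : ∀ z ∈ R, ∃ a ∈ P, ∃ b ∈ P, z = ZFSet.pair a b)
    (hrefl : ∀ a ∈ P, ZFSet.pair a a ∈ R)
    (htrans : ∀ a b d, ZFSet.pair a b ∈ R → ZFSet.pair b d ∈ R → ZFSet.pair a d ∈ R)
    (hanti : ∀ a b, ZFSet.pair a b ∈ R → ZFSet.pair b a ∈ R → a = b) :
    ∃ (Q : Type u) (_ : PartialOrder Q) (c : Q → ZFSet.{u}), PosetIn M Q c ∧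
      (∀ z, z ∈ P ↔ ∃ q, z = c q) ∧ ∀ p q, p ≤ q ↔ ZFSet.pair (c p) (c q) ∈ R := by
  let c : Pt P → ZFSet.{u} := fun q => ((equivShrink {x : ZFSet.{u} // x ∈ P}).symm q).1
  have hc : ∀ q, c q ∈ P := fun q => ((equivShrink {x : ZFSet.{u} // x ∈ P}).symm q).2
  have hinj : Function.Injective c := fun a b hab =>
    (equivShrink {x : ZFSet.{u} // x ∈ P}).symm.injective (Subtype.ext hab)
  have hsurj : ∀ z, z ∈ P ↔ ∃ q, z = c q := by
    intro z
    constructor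
    · intro hz
      exact ⟨equivShrink {x : ZFSet.{u} // x ∈ P} ⟨z, hz⟩, by simp [c]⟩
    · rintro ⟨q, rfl⟩
      exact hc q
  let I : PartialOrder (Pt P) :=
    { le := fun p q => ZFSet.pair (c p) (c q) ∈ R
      lt := fun p q => ZFSet.pair (c p) (c q) ∈ R ∧ ¬ ZFSet.pair (c q) (c p) ∈ R
      lt_iff_le_not_ge := fun _ _ => Iff.rfl
      le_refl := fun p => hrefl _ (hc p)
      le_trans := fun a b d hab hbd => htrans _ _ _ hab hbd
      le_antisymm := fun a b hab hba => hinj (hanti _ _ hab hba) }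
  refine ⟨Pt P, I, c, ⟨hinj, ⟨P, hP, hsurj⟩, R, hR, ?_⟩, hsurj, fun p q => Iff.rfl⟩
  intro z
  constructor
  · intro hz
    obtain ⟨a, ha, b, hb, rfl⟩ := hRP z hz
    obtain ⟨p, rfl⟩ := (hsurj a).1 ha
    obtain ⟨q, rfl⟩ := (hsurj b).1 hb
    exact ⟨p, q, hz, rfl⟩
  · rintro ⟨p, q, h, rfl⟩
    exact h

end Pool.Agent.H52.GX
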