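import Pool.Agent.H52.GX.Truth
import Pool.Agent.H52.GX.Ax
import Pool.Agent.H17.Omega.CtmV
import Pool.Agent.H52.OM.ACM

/-!
# Generic extensions: comprehension for names, check names
-/

set_option autoImplicit false
set_option linter.unusedVariables false
set_option linter.unusedSectionVars false
set_option linter.unusedSimpArgs false

universe u v w

namespace Pool.Agent.H52.GX

open Pool.Agent.H17.Omega Name CTM

variable {Q : Type u} [PartialOrder Q] {M : Set ZFSet.{u}} {c : Q → ZFSet.{u}} {G : Set Q}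

/-- Comprehension for names. -/
theorem exists_name (hM : CTM M) {P R : ZFSet.{u}} (h : PR M c P R) {T : ZFSet.{u}} (hT : T ∈ M)
    {B : M → M → Prop} (hB : hM.Dfn (fun v : Fin 2 → M => B (v 0) (v 1))) :
    ∃ U ∈ M, U ⊆ ZFSet.prod T P ∧ ∀ (σ : M) (p : Q), ZFSet.pair σ.1 (c p) ∈ U ↔
      (σ.1 ∈ T ∧ B σ ⟨c p, h.c_mem_N hM p⟩) := by
  have hd : hM.Dfn (fun v : Fin 1 → M => ∃ x y : M, (v 0).1 = ZFSet.pair x.1 y.1 ∧ B x y) := by
    refine Dfn.ex (Dfn.ex (Dfn.and ?_ ?_))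
    · (repeat' first
          | exact DT.var _ | exact DT.last | exact DT.const _ | assumption
          | refine Dfn.pairMem ?_ ?_ ?_ | refine Dfn.isPair ?_ ?_ ?_ | refine Dfn.mem ?_ ?_
          | refine Dfn.eqv ?_ ?_ | refine Dfn.eq ?_ ?_ | refine Dfn.subset ?_ ?_
          | refine Dfn.isEmpty ?_ | refine Dfn.isTrans ?_ | refine Dfn.isOrd ?_
          | refine Dfn.isNat ?_ | refine Dfn.and ?_ ?_ | refine Dfn.or ?_ ?_
          | refine Dfn.iff ?_ ?_ | refine Dfn.not ?_ | refine Dfn.imp ?_ ?_ | refine Dfn.all ?_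
          | refine Dfn.ex ?_ | exact Dfn.false')
    · exact Dfn.subst2 hB (DT.var _) (DT.var _)
  obtain ⟨U, hU, h1⟩ := hM.exists_sep (P := fun z => ∃ x y : M, z.1 = ZFSet.pair x.1 y.1 ∧ B x y) hd
    (hM.prod_mem hT h.hP)
  refine ⟨U, hU, fun z hz => ((h1 z).1 hz).1, fun σ p => ?_⟩
  rw [h1, ZFSet.pair_mem_prod]
  constructor
  · rintro ⟨⟨h2, _⟩, _, x, y, h3, h4⟩
    rw [ZFSet.pair_inj] at h3
    have e1 : σ = x := Subtype.ext h3.1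
    have e2 : (⟨c p, h.c_mem_N hM p⟩ : M) = y := Subtype.ext h3.2
    rw [e1, e2]
    exact ⟨by rw [← e1]; exact h2, h4⟩
  · rintro ⟨h2, h3⟩
    exact ⟨⟨h2, h.c_mem_P p⟩, hM.pair_mem σ.2 (h.c_mem_N hM p), σ, _, rfl, h3⟩

theorem DT_upd {hM : CTM M} {n : ℕ} {g : (Fin n → M) → ℕ → M} (hg : ∀ i, hM.DT (fun v => g v i))
    (k : ℕ) {s : (Fin n → M) → M} (hs : hM.DT s) (i : ℕ) : hM.DT (fun v => upd (g v) k (s v) i) := by
  by_cases hik : i = k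
  · obtain ⟨j, hj⟩ := hs
    refine ⟨j, fun v f hf => ?_⟩
    rw [hj v f hf]
    beta_reduce
    rw [hik, upd_same]
  · obtain ⟨j, hj⟩ := hg i
    refine ⟨j, fun v f hf => ?_⟩
    rw [hj v f hf]
    beta_reduce
    rw [upd_ne _ _ hik]

/-- Semantic comprehension for names: `{val σ : σ ∈ T, φ(val σ)}` has a name. -/
theorem exists_comp (hM : CTM M) {P R : ZFSet.{u}} (h : PR M c P R) (hQ : PosetIn M Q c) (φ : Fml)
    (k : ℕ) (f : ℕ → M) {T : ZFSet.{u}} (hT : T ∈ M) : ∃ U : M, U.1 ⊆ ZFSet.prod T P ∧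
      ∀ G, GenF M c G → ∀ z, z ∈ ev c G U.1 ↔ ∃ σ : M, σ.1 ∈ T ∧ z = ev c G σ.1 ∧
        Sat (SMem (Ext M c G)) φ (upd (fun i => evE M c G (f i)) k (evE M c G σ)) := by
  have hB : hM.Dfn (fun v : Fin 2 → M => ∃ p, c p = (v 1).1 ∧ Fc M c φ (upd f k (v 0)) p) :=
    Fc.dfn hM h φ (fun v : Fin 2 → M => v 1) (fun v => upd f k (v 0)) (DT.var _)
      (DT_upd (g := fun _ => f) (fun i => DT.const _) k (DT.var 0))
  obtain ⟨U, hU, h1, h2⟩ := exists_name hM h hT (B := fun x y => ∃ p, c p = y.1 ∧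
    Fc M c φ (upd f k x) p) hB
  refine ⟨⟨U, hU⟩, h1, fun G hG z => ?_⟩
  have hs : ∀ σ : M, (fun i => evE M c G (upd f k σ i)) =
      upd (fun i => evE M c G (f i)) k (evE M c G σ) := fun σ => upd_comp (evE M c G) f k σ
  rw [mem_ev]
  constructor
  · rintro ⟨σ, p, h3, h4, rfl⟩
    have hσ : σ ∈ M := (hM.of_pair_mem (hM.mem_of_mem hU h3)).1
    obtain ⟨h5, q, h6, h7⟩ := (h2 ⟨σ, hσ⟩ p).1 h3
    have h6 := h.inj h6
    subst h6
    refine ⟨⟨σ, hσ⟩, h5, rfl, ?_⟩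
    rw [← hs, truth hM hQ hG]
    exact ⟨q, h4, h7⟩
  · rintro ⟨σ, h3, rfl, h4⟩
    rw [← hs, truth hM hQ hG] at h4
    obtain ⟨p, hp, h5⟩ := h4
    exact ⟨σ.1, p, (h2 σ p).2 ⟨h3, p, rfl, h5⟩, hp, rfl⟩

/-- All values of the names in a set `T ∈ M`. -/
theorem exists_all (hM : CTM M) {P R : ZFSet.{u}} (h : PR M c P R) {T : ZFSet.{u}} (hT : T ∈ M) :
    ∃ U : M, ∀ G : Set Q, G.Nonempty → ∀ z, z ∈ ev c G U.1 ↔ ∃ σ : M, σ.1 ∈ T ∧ z = ev c G σ.1 := by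
  refine ⟨⟨ZFSet.prod T P, hM.prod_mem hT h.hP⟩, fun G hG z => ?_⟩
  rw [mem_ev]
  constructor
  · rintro ⟨σ, p, h3, h4, rfl⟩
    rw [ZFSet.pair_mem_prod] at h3
    exact ⟨⟨σ, hM.mem_of_mem hT h3.1⟩, h3.1, rfl⟩
  · rintro ⟨σ, h3, rfl⟩
    obtain ⟨p, hp⟩ := hG
    exact ⟨σ.1, p, by rw [ZFSet.pair_mem_prod]; exact ⟨h3, h.c_mem_P p⟩, hp, rfl⟩

/-- Check names. -/
theorem exists_check (hM : CTM M) {P R : ZFSet.{u}} (h : PR M c P R) : ∃ F : M → M,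
    hM.Dfn (fun v : Fin 2 → M => F (v 0) = v 1) ∧
    ∀ x : M, ∀ G : Set Q, G.Nonempty → ev c G (F x).1 = x.1 := by
  have hP := h.hP
  refine Exists.elim (recursion (hN := hM) (R := fun x y : M => x.1 ∈ y.1) (𝒢 := fun x r v =>
    ∀ z : M, z.1 ∈ v.1 ↔ ∃ y w, r y w ∧ ∃ p : M, p.1 ∈ (⟨P, hP⟩ : M).1 ∧ z.1 = ZFSet.pair w.1 p.1)
    (Dfn.mem (DT.var _) (DT.var _)) ?_
    (fun x => ⟨x.1, x.2, fun y => Iff.rfl⟩) mem_membership_wf ?_ ?_) ?_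
  · show hM.Dfn (fun v : Fin 3 → M => ∀ z : M, z.1 ∈ (v 2).1 ↔ ∃ y w : M,
      (y.1 ∈ (v 0).1 ∧ ZFSet.pair y.1 w.1 ∈ (v 1).1) ∧ ∃ p : M, p.1 ∈ (⟨P, hP⟩ : M).1 ∧
      z.1 = ZFSet.pair w.1 p.1)
    (repeat' first
        | exact DT.var _ | exact DT.last | exact DT.const _ | assumption
        | refine Dfn.pairMem ?_ ?_ ?_ | refine Dfn.isPair ?_ ?_ ?_ | refine Dfn.mem ?_ ?_
        | refine Dfn.eqv ?_ ?_ | refine Dfn.eq ?_ ?_ | refine Dfn.subset ?_ ?_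
        | refine Dfn.isEmpty ?_ | refine Dfn.isTrans ?_ | refine Dfn.isOrd ?_
        | refine Dfn.isNat ?_ | refine Dfn.and ?_ ?_ | refine Dfn.or ?_ ?_ | refine Dfn.iff ?_ ?_
        | refine Dfn.not ?_ | refine Dfn.imp ?_ ?_ | refine Dfn.all ?_ | refine Dfn.ex ?_
        | exact Dfn.false')
  · intro x r v v' h1 h2
    exact Subtype.ext (hM.ext' v.2 v'.2 fun z => (h1 z).trans (h2 z).symm)
  · intro x g hd hu
    have hUM : ZFSet.sUnion (ZFSet.sUnion g.1) ∈ M := hM.sUnion_mem (hM.sUnion_mem g.2)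
    have hdf : hM.Dfn (fun v : Fin 1 → M => ∃ y w : M,
      (y.1 ∈ x.1 ∧ ZFSet.pair y.1 w.1 ∈ g.1) ∧ ∃ p : M, p.1 ∈ (⟨P, hP⟩ : M).1 ∧
      (v 0).1 = ZFSet.pair w.1 p.1) := by
      (repeat' first
          | exact DT.var _ | exact DT.last | exact DT.const _ | assumption
          | refine Dfn.pairMem ?_ ?_ ?_ | refine Dfn.isPair ?_ ?_ ?_ | refine Dfn.mem ?_ ?_
          | refine Dfn.eqv ?_ ?_ | refine Dfn.eq ?_ ?_ | refine Dfn.subset ?_ ?_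
          | refine Dfn.isEmpty ?_ | refine Dfn.isTrans ?_ | refine Dfn.isOrd ?_
          | refine Dfn.isNat ?_ | refine Dfn.and ?_ ?_ | refine Dfn.or ?_ ?_
          | refine Dfn.iff ?_ ?_ | refine Dfn.not ?_ | refine Dfn.imp ?_ ?_ | refine Dfn.all ?_
          | refine Dfn.ex ?_ | exact Dfn.false')
    obtain ⟨b, hb, hb'⟩ := hM.exists_sep (P := fun z => ∃ y w : M,
      (y.1 ∈ x.1 ∧ ZFSet.pair y.1 w.1 ∈ g.1) ∧ ∃ p : M, p.1 ∈ (⟨P, hP⟩ : M).1 ∧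
      z.1 = ZFSet.pair w.1 p.1) hdf (hM.prod_mem hUM hP)
    refine ⟨⟨b, hb⟩, fun z => ?_⟩
    show z.1 ∈ b ↔ _
    rw [hb']
    constructor
    · rintro ⟨_, _, h1⟩; exact h1
    · intro h1
      refine ⟨?_, z.2, h1⟩
      obtain ⟨y, w, ⟨h2, h3⟩, p, h4, h5⟩ := h1
      rw [h5, ZFSet.pair_mem_prod]
      exact ⟨(mem_sUnion_sUnion_pair h3).2, h4⟩
  · intro F hF
    refine ⟨F, hF.1, ?_⟩
    have hF2 := hF.2
    intro x G hG
    have key : ∀ (o : Ordinal.{u}) (x : M), x.1.rank = o → ev c G (F x).1 = x.1 := by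
      intro o
      induction o using WellFoundedLT.induction with
      | ind o ih =>
      intro x ho
      ext z
      rw [mem_ev]
      constructor
      · rintro ⟨σ, p, h1, h2, rfl⟩
        have h3 : ZFSet.pair σ (c p) ∈ M := hM.mem_of_mem (F x).2 h1
        obtain ⟨y, w, ⟨h4, h5⟩, p', h6, h7⟩ := (hF2 x ⟨_, h3⟩).1 h1
        rw [ZFSet.pair_inj] at h7
        rw [h7.1, ← h5, ih _ (by rw [← ho]; exact ZFSet.rank_lt_of_mem h4) y rfl]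
        exact h4
      · intro hz
        obtain ⟨p, hp⟩ := hG
        have hzM := hM.mem_of_mem x.2 hz
        refine ⟨(F ⟨z, hzM⟩).1, p, ?_, hp, ih _ (by rw [← ho]; exact ZFSet.rank_lt_of_mem hz) ⟨z, hzM⟩ rfl⟩
        exact (hF2 x ⟨_, hM.pair_mem (F ⟨z, hzM⟩).2 (h.c_mem_N hM p)⟩).2
          ⟨⟨z, hzM⟩, _, ⟨hz, rfl⟩, ⟨c p, h.c_mem_N hM p⟩, h.c_mem_P p, rfl⟩
    exact key _ x rfl

theorem subset_Ext (hM : CTM M) (hQ : PosetIn M Q c) (hG : G.Nonempty) : M ⊆ Ext M c G := by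
  obtain ⟨P, R, h⟩ := hQ.exists_PR
  obtain ⟨F, hF, hF'⟩ := exists_check hM h
  intro x hx
  exact ⟨(F ⟨x, hx⟩).1, (F ⟨x, hx⟩).2, hF' ⟨x, hx⟩ G hG⟩

/-- The generic filter (as a set of codes) belongs to the extension. -/
theorem gset_mem (hM : CTM M) (hQ : PosetIn M Q c) (hG : G.Nonempty) :
    ∃ g ∈ Ext M c G, ∀ z, z ∈ g ↔ ∃ p ∈ G, z = c p := by
  obtain ⟨P, R, h⟩ := hQ.exists_PR
  obtain ⟨F, hF, hF'⟩ := exists_check hM h
  have hP := h.hP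
  have hd : hM.Dfn (fun v : Fin 2 → M => F (v 0) = v 1) := hF
  obtain ⟨b, hb, hb'⟩ := hM.exists_repl (F := fun x y => ∃ w : M, F x = w ∧ y.1 = ZFSet.pair w.1 x.1)
    (by
      refine Dfn.ex (Dfn.and (Dfn.subst2 (P := fun x y => F x = y) hF (DT.var _) (DT.var _)) ?_)
      (repeat' first
          | exact DT.var _ | exact DT.last | exact DT.const _ | assumption
          | refine Dfn.pairMem ?_ ?_ ?_ | refine Dfn.isPair ?_ ?_ ?_ | refine Dfn.mem ?_ ?_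
          | refine Dfn.eqv ?_ ?_ | refine Dfn.eq ?_ ?_ | refine Dfn.subset ?_ ?_
          | refine Dfn.isEmpty ?_ | refine Dfn.isTrans ?_ | refine Dfn.isOrd ?_
          | refine Dfn.isNat ?_ | refine Dfn.and ?_ ?_ | refine Dfn.or ?_ ?_
          | refine Dfn.iff ?_ ?_ | refine Dfn.not ?_ | refine Dfn.imp ?_ ?_ | refine Dfn.all ?_
          | refine Dfn.ex ?_ | exact Dfn.false')) hP (by
      rintro x hx y y' ⟨w, rfl, h1⟩ ⟨w', rfl, h2⟩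
      exact Subtype.ext (h1.trans h2.symm))
  refine ⟨ev c G b, ⟨b, hb, rfl⟩, fun z => ?_⟩
  rw [mem_ev]
  constructor
  · rintro ⟨σ, p, h1, h2, rfl⟩
    obtain ⟨x, h3, w, rfl, h4⟩ := (hb' ⟨_, hM.mem_of_mem hb h1⟩).1 h1
    rw [ZFSet.pair_inj] at h4
    exact ⟨p, h2, by rw [h4.1, hF' x G hG, ← h4.2]⟩
  · rintro ⟨p, hp, rfl⟩
    have hc := h.c_mem_N hM p
    refine ⟨(F ⟨c p, hc⟩).1, p, ?_, hp, hF' ⟨c p, hc⟩ G hG⟩
    exact (hb' ⟨_, hM.pair_mem (F ⟨c p, hc⟩).2 hc⟩).2 ⟨⟨c p, hc⟩, h.c_mem_P p, _, rfl, rfl⟩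

end Pool.Agent.H52.GX
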