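import Pool.Agent.H52.GX.Min
import Pool.Agent.H17.GP.Seq

/-!
# Names of sequences

A sequence `s : ℕ → A` (`A ∈ M`) of the generic extension has a name that is a set of triples
`((n, a), c p)`.
-/

set_option autoImplicit false
set_option linter.unusedVariables false
set_option linter.unusedSectionVars false
set_option linter.unusedSimpArgs false

universe u v w

namespace Pool.Agent.H52.GX

open Pool.Agent.H17.Omega Name CTM

variable {Q : Type u} [PartialOrder Q] {M : Set ZFSet.{u}} {c : Q → ZFSet.{u}} {G : Set Q}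

/-- `((n, a), p) ∈ ν`: `p` forces that the `n`-th element of the sequence is `a`. -/
def Tr3 (c : Q → ZFSet.{u}) (ν : ZFSet.{u}) (n : ℕ) (a : ZFSet.{u}) (p : Q) : Prop :=
  ZFSet.pair (ZFSet.pair (natZ n) a) (c p) ∈ ν

/-- `ν` is a (nice) name of a sequence of elements of `A`. -/
structure SeqNm (c : Q → ZFSet.{u}) (A ν : ZFSet.{u}) : Prop where
  mem : ∀ z ∈ ν, ∃ (n : ℕ) (a : ZFSet.{u}) (p : Q), a ∈ A ∧ z = ZFSet.pair (ZFSet.pair (natZ n) a) (c p)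
  uni : ∀ n a a' p p', Tr3 c ν n a p → Tr3 c ν n a' p' → (∃ r, r ≤ p ∧ r ≤ p') → a = a'
  tot : ∀ n p, ∃ q ≤ p, ∃ a, Tr3 c ν n a q
  down : ∀ n a p q, q ≤ p → Tr3 c ν n a p → Tr3 c ν n a q

/-- Sequences of the extension have names. -/
theorem exists_seqNm (hM : CTM M) (hQ : PosetIn M Q c) (hG : GenF M c G) {A : ZFSet.{u}} (hA : A ∈ M)
    {s : ℕ → ZFSet.{u}} (hs : ∀ n, s n ∈ A) (hS : seqZ s ∈ Ext M c G) :
    ∃ ν ∈ M, SeqNm c A ν ∧ ∀ n a, a = s n ↔ ∃ p ∈ G, Tr3 c ν n a p := by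
  obtain ⟨P, R, h⟩ := hQ.exists_PR
  have hP := h.hP
  have hR := h.hR
  obtain ⟨ρ, hρ, hρs⟩ := hS
  obtain ⟨F, hF, hF'⟩ := exists_check hM h
  obtain ⟨ME, hME, hME'⟩ := hM.exists_fmem h
  -- `E3 n a y`: `y` forces `(n, a) ∈ ρ`
  obtain ⟨E3, hE3, hE3d⟩ : ∃ E3 : M → M → M → Prop,
      (hM.Dfn (fun v : Fin 3 → M => E3 (v 0) (v 1) (v 2))) ∧
      ∀ n a y, E3 n a y ↔ ∃ z e : M, z.1 = ZFSet.pair n.1 a.1 ∧ F z = e ∧ ME y e ⟨ρ, hρ⟩ := by
    refine ⟨_, ?_, fun _ _ _ => Iff.rfl⟩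
    refine Dfn.ex (Dfn.ex (Dfn.and ?_ (Dfn.and (Dfn.subst2 (P := fun x y => F x = y) hF
      (DT.var _) (DT.var _)) (Dfn.subst3 hME (DT.var _) (DT.var _) (DT.const _)))))
    (repeat' first
        | exact DT.var _ | exact DT.last | exact DT.const _ | assumption
        | refine Dfn.pairMem ?_ ?_ ?_ | refine Dfn.isPair ?_ ?_ ?_ | refine Dfn.mem ?_ ?_
        | refine Dfn.eqv ?_ ?_ | refine Dfn.eq ?_ ?_ | refine Dfn.subset ?_ ?_
        | refine Dfn.isEmpty ?_ | refine Dfn.isTrans ?_ | refine Dfn.isOrd ?_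
        | refine Dfn.isNat ?_ | refine Dfn.and ?_ ?_ | refine Dfn.or ?_ ?_ | refine Dfn.iff ?_ ?_
        | refine Dfn.not ?_ | refine Dfn.imp ?_ ?_ | refine Dfn.all ?_ | refine Dfn.ex ?_
        | exact Dfn.false')
  let nz : ℕ → M := fun n => ⟨natZ n, hM.natZ_mem_N n⟩
  let cq : Q → M := fun p => ⟨c p, h.c_mem_N hM p⟩
  have hE3' : ∀ (n : ℕ) (a : M) (q : Q), E3 (nz n) a (cq q) ↔
      fmem (nm c (F ⟨ZFSet.pair (natZ n) a.1, hM.pair_mem (hM.natZ_mem_N n) a.2⟩).1) (nm c ρ) q := by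
    intro n a q
    rw [hE3d]
    constructor
    · rintro ⟨z, e, h1, rfl, h2⟩
      have h3 : z = ⟨ZFSet.pair (natZ n) a.1, hM.pair_mem (hM.natZ_mem_N n) a.2⟩ := Subtype.ext h1
      rw [← h3]
      exact (hME' q _ _ _ rfl).1 h2
    · intro h1
      exact ⟨_, _, rfl, rfl, (hME' q _ _ _ rfl).2 h1⟩
  have hE3mono : ∀ (n : ℕ) (a : M) (p q : Q), q ≤ p → E3 (nz n) a (cq p) → E3 (nz n) a (cq q) := by
    intro n a p q hq h1
    rw [hE3'] at h1 ⊢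
    exact fmem_mono hq h1
  have hE3G : ∀ (n : ℕ) (a : M), (∃ p ∈ G, E3 (nz n) a (cq p)) ↔ a.1 = s n := by
    intro n a
    simp only [hE3']
    rw [← fmem_truth hM hQ hG (F _).2 hρ, hF' _ G hG.ne, hρs, pair_mem_seqZ]
  obtain ⟨p00, hp00⟩ := hG.ne
  -- a condition that forces totality
  let ω' : M := ⟨omZ, hM.omZ_mem⟩
  let A' : M := ⟨A, hA⟩
  let R' : M := ⟨R, hR⟩
  let P' : M := ⟨P, hP⟩
  let Tot : M → Prop := fun y => ∀ n : M, n.1 ∈ ω'.1 → ∀ q : M, ZFSet.pair q.1 y.1 ∈ R'.1 →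
    ∃ r : M, ZFSet.pair r.1 q.1 ∈ R'.1 ∧ ∃ a : M, a.1 ∈ A'.1 ∧ E3 n a r
  have hTot : hM.Dfn (fun v : Fin 1 → M => Tot (v 0)) := by
    (repeat' first
        | exact DT.var _ | exact DT.last | exact DT.const _ | assumption
        | refine Dfn.pairMem ?_ ?_ ?_ | refine Dfn.isPair ?_ ?_ ?_ | refine Dfn.mem ?_ ?_
        | refine Dfn.eqv ?_ ?_ | refine Dfn.eq ?_ ?_ | refine Dfn.subset ?_ ?_
        | refine Dfn.isEmpty ?_ | refine Dfn.isTrans ?_ | refine Dfn.isOrd ?_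
        | refine Dfn.isNat ?_ | refine Dfn.and ?_ ?_ | refine Dfn.or ?_ ?_ | refine Dfn.iff ?_ ?_
        | refine Dfn.not ?_ | refine Dfn.imp ?_ ?_ | refine Dfn.all ?_ | refine Dfn.ex ?_
        | exact Dfn.false')
    exact Dfn.subst3 hE3 (DT.var _) (DT.var _) (DT.var _)
  let NTot : M → Prop := fun y => ∃ n : M, n.1 ∈ ω'.1 ∧ ∀ r : M, ZFSet.pair r.1 y.1 ∈ R'.1 →
    ∀ a : M, a.1 ∈ A'.1 → ¬ E3 n a r
  have hNTot : hM.Dfn (fun v : Fin 1 → M => NTot (v 0)) := by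
    (repeat' first
        | exact DT.var _ | exact DT.last | exact DT.const _ | assumption
        | refine Dfn.pairMem ?_ ?_ ?_ | refine Dfn.isPair ?_ ?_ ?_ | refine Dfn.mem ?_ ?_
        | refine Dfn.eqv ?_ ?_ | refine Dfn.eq ?_ ?_ | refine Dfn.subset ?_ ?_
        | refine Dfn.isEmpty ?_ | refine Dfn.isTrans ?_ | refine Dfn.isOrd ?_
        | refine Dfn.isNat ?_ | refine Dfn.and ?_ ?_ | refine Dfn.or ?_ ?_ | refine Dfn.iff ?_ ?_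
        | refine Dfn.not ?_ | refine Dfn.imp ?_ ?_ | refine Dfn.all ?_ | refine Dfn.ex ?_
        | exact Dfn.false')
    exact Dfn.subst3 hE3 (DT.var _) (DT.var _) (DT.var _)
  obtain ⟨p1, hp1, hp1D⟩ := hG.gen_dfn hM hQ (D := fun y => Tot y ∨ NTot y) (hTot.or hNTot) hp00 (by
    intro r hr
    by_cases h1 : Tot (cq r)
    · refine ⟨r, le_rfl, fun z hz => Or.inl ?_⟩
      have : z = cq r := Subtype.ext hz
      rw [this]; exact h1
    · simp only [Tot] at h1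
      push Not at h1
      obtain ⟨n, hn, q, hq, h2⟩ := h1
      obtain ⟨q1, r1, h3, h4, h5⟩ := h.of_pair_mem hq
      have h5 : r = r1 := h.inj h5
      subst h5
      refine ⟨q1, h3, fun z hz => Or.inr ⟨n, hn, fun t ht a ha => h2 t ?_ a ha⟩⟩
      rw [h4, ← hz]; exact ht)
  have hp1T : Tot (cq p1) := by
    rcases hp1D (cq p1) rfl with h1 | ⟨n, hn, h1⟩
    · exact h1
    · exfalso
      obtain ⟨m, hm⟩ := mem_omZ.1 hn
      have hn' : n = nz m := Subtype.ext hm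
      subst hn'
      have hsm : s m ∈ M := hM.mem_of_mem hA (hs m)
      obtain ⟨p, hp, h2⟩ := (hE3G m ⟨s m, hsm⟩).2 rfl
      obtain ⟨t, ht, h3, h4⟩ := hG.dir p1 hp1 p hp
      exact h1 (cq t) (h.le_iff.2 h3) ⟨s m, hsm⟩ (hs m) (hE3mono m _ p t h4 h2)
  -- a condition that forces uniqueness
  let Un : M → Prop := fun y => ∀ n : M, n.1 ∈ ω'.1 → ∀ a : M, a.1 ∈ A'.1 → ∀ a' : M, a'.1 ∈ A'.1 →
    ¬ a = a' → ∀ q : M, ZFSet.pair q.1 y.1 ∈ R'.1 → ¬ (E3 n a q ∧ E3 n a' q)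
  have hUn : hM.Dfn (fun v : Fin 1 → M => Un (v 0)) := by
    (repeat' first
        | exact DT.var _ | exact DT.last | exact DT.const _ | assumption
        | refine Dfn.pairMem ?_ ?_ ?_ | refine Dfn.isPair ?_ ?_ ?_ | refine Dfn.mem ?_ ?_
        | refine Dfn.eqv ?_ ?_ | refine Dfn.eq ?_ ?_ | refine Dfn.subset ?_ ?_
        | refine Dfn.isEmpty ?_ | refine Dfn.isTrans ?_ | refine Dfn.isOrd ?_
        | refine Dfn.isNat ?_ | refine Dfn.and ?_ ?_ | refine Dfn.or ?_ ?_ | refine Dfn.iff ?_ ?_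
        | refine Dfn.not ?_ | refine Dfn.imp ?_ ?_ | refine Dfn.all ?_ | refine Dfn.ex ?_
        | exact Dfn.false')
    · exact Dfn.subst3 hE3 (DT.var _) (DT.var _) (DT.var _)
    · exact Dfn.subst3 hE3 (DT.var _) (DT.var _) (DT.var _)
  let NUn : M → Prop := fun y => ∃ n : M, n.1 ∈ ω'.1 ∧ ∃ a : M, a.1 ∈ A'.1 ∧ ∃ a' : M, a'.1 ∈ A'.1 ∧
    ¬ a = a' ∧ E3 n a y ∧ E3 n a' y
  have hNUn : hM.Dfn (fun v : Fin 1 → M => NUn (v 0)) := by
    (repeat' first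
        | exact DT.var _ | exact DT.last | exact DT.const _ | assumption
        | refine Dfn.pairMem ?_ ?_ ?_ | refine Dfn.isPair ?_ ?_ ?_ | refine Dfn.mem ?_ ?_
        | refine Dfn.eqv ?_ ?_ | refine Dfn.eq ?_ ?_ | refine Dfn.subset ?_ ?_
        | refine Dfn.isEmpty ?_ | refine Dfn.isTrans ?_ | refine Dfn.isOrd ?_
        | refine Dfn.isNat ?_ | refine Dfn.and ?_ ?_ | refine Dfn.or ?_ ?_ | refine Dfn.iff ?_ ?_
        | refine Dfn.not ?_ | refine Dfn.imp ?_ ?_ | refine Dfn.all ?_ | refine Dfn.ex ?_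
        | exact Dfn.false')
    · exact Dfn.subst3 hE3 (DT.var _) (DT.var _) (DT.var _)
    · exact Dfn.subst3 hE3 (DT.var _) (DT.var _) (DT.var _)
  obtain ⟨p2, hp2, hp2D⟩ := hG.gen_dfn hM hQ (D := fun y => Un y ∨ NUn y) (hUn.or hNUn) hp00 (by
    intro r hr
    by_cases h1 : Un (cq r)
    · refine ⟨r, le_rfl, fun z hz => Or.inl ?_⟩
      have : z = cq r := Subtype.ext hz
      rw [this]; exact h1
    · simp only [Un] at h1
      push Not at h1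
      obtain ⟨n, hn, a, ha, a', ha', h6, q, hq, h2, h2'⟩ := h1
      obtain ⟨q1, r1, h3, h4, h5⟩ := h.of_pair_mem hq
      have h5 : r = r1 := h.inj h5
      subst h5
      refine ⟨q1, h3, fun z hz => Or.inr ⟨n, hn, a, ha, a', ha', h6, ?_⟩⟩
      have : z = q := Subtype.ext (hz.trans h4.symm)
      rw [this]; exact ⟨h2, h2'⟩)
  have hp2U : Un (cq p2) := by
    rcases hp2D (cq p2) rfl with h1 | ⟨n, hn, a, ha, a', ha', h6, h1, h1'⟩
    · exact h1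
    · exfalso
      obtain ⟨m, hm⟩ := mem_omZ.1 hn
      have hn' : n = nz m := Subtype.ext hm
      subst hn'
      apply h6
      apply Subtype.ext
      rw [(hE3G m a).1 ⟨p2, hp2, h1⟩, (hE3G m a').1 ⟨p2, hp2, h1'⟩]
  obtain ⟨p0, hp0, h01, h02⟩ := hG.dir p1 hp1 p2 hp2
  -- the name
  let a0 : M := ⟨s 0, hM.mem_of_mem hA (hs 0)⟩
  let B : M → M → Prop := fun z y => ∃ n a : M, z.1 = ZFSet.pair n.1 a.1 ∧ n.1 ∈ ω'.1 ∧ a.1 ∈ A'.1 ∧
    ((ZFSet.pair y.1 (cq p0).1 ∈ R'.1 ∧ E3 n a y) ∨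
      (a.1 = a0.1 ∧ ∀ r : M, ZFSet.pair r.1 y.1 ∈ R'.1 → ¬ ZFSet.pair r.1 (cq p0).1 ∈ R'.1))
  have hB : hM.Dfn (fun v : Fin 2 → M => B (v 0) (v 1)) := by
    (repeat' first
        | exact DT.var _ | exact DT.last | exact DT.const _ | assumption
        | refine Dfn.pairMem ?_ ?_ ?_ | refine Dfn.isPair ?_ ?_ ?_ | refine Dfn.mem ?_ ?_
        | refine Dfn.eqv ?_ ?_ | refine Dfn.eq ?_ ?_ | refine Dfn.subset ?_ ?_
        | refine Dfn.isEmpty ?_ | refine Dfn.isTrans ?_ | refine Dfn.isOrd ?_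
        | refine Dfn.isNat ?_ | refine Dfn.and ?_ ?_ | refine Dfn.or ?_ ?_ | refine Dfn.iff ?_ ?_
        | refine Dfn.not ?_ | refine Dfn.imp ?_ ?_ | refine Dfn.all ?_ | refine Dfn.ex ?_
        | exact Dfn.false')
    exact Dfn.subst3 hE3 (DT.var _) (DT.var _) (DT.var _)
  obtain ⟨ν, hν, hν1, hν2⟩ := exists_name hM h (hM.prod_mem hM.omZ_mem hA) hB
  have key : ∀ (n : ℕ) (a : ZFSet.{u}) (p : Q), Tr3 c ν n a p ↔ ∃ ha : a ∈ A,
      (p ≤ p0 ∧ E3 (nz n) ⟨a, hM.mem_of_mem hA ha⟩ (cq p)) ∨ (a = s 0 ∧ ∀ r, r ≤ p → ¬ r ≤ p0) := by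
    intro n a p
    constructor
    · intro h1
      have h2 : ZFSet.pair (natZ n) a ∈ M := (hM.of_pair_mem (hM.mem_of_mem hν h1)).1
      obtain ⟨h3, n', a', h4, h5, h6, h7⟩ := (hν2 ⟨_, h2⟩ p).1 h1
      have h4 : ZFSet.pair (natZ n) a = ZFSet.pair n'.1 a'.1 := h4
      rw [ZFSet.pair_inj] at h4
      obtain ⟨h8, rfl⟩ := h4
      have h8 : n' = nz n := Subtype.ext h8.symm
      subst h8
      refine ⟨h6, ?_⟩
      rcases h7 with h7 | h7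
      · exact Or.inl ⟨h.le_iff.1 h7.1, h7.2⟩
      · exact Or.inr ⟨h7.1, fun r hr hr' => h7.2 (cq r) (h.le_iff.2 hr) (h.le_iff.2 hr')⟩
    · rintro ⟨ha, h1⟩
      have haM := hM.mem_of_mem hA ha
      refine (hν2 ⟨_, hM.pair_mem (hM.natZ_mem_N n) haM⟩ p).2 ⟨?_, nz n, ⟨a, haM⟩, rfl, natZ_mem_omZ n, ha, ?_⟩
      · rw [ZFSet.pair_mem_prod]; exact ⟨natZ_mem_omZ n, ha⟩
      · rcases h1 with h1 | h1
        · exact Or.inl ⟨h.le_iff.2 h1.1, h1.2⟩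
        · refine Or.inr ⟨h1.1, fun r hr hr' => ?_⟩
          obtain ⟨q1, r1, h3, h4, h5⟩ := h.of_pair_mem hr
          have h5 : p = r1 := h.inj h5
          subst h5
          rw [h4] at hr'
          exact h1.2 q1 h3 (h.le_iff.1 hr')
  refine ⟨ν, hν, ⟨?_, ?_, ?_, ?_⟩, ?_⟩
  · intro z hz
    have h1 := hν1 hz
    rw [ZFSet.mem_prod] at h1
    obtain ⟨x, hx, y, hy, rfl⟩ := h1
    rw [ZFSet.mem_prod] at hx
    obtain ⟨n, hn, a, ha, rfl⟩ := hx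
    obtain ⟨m, rfl⟩ := mem_omZ.1 hn
    obtain ⟨p, rfl⟩ := (h.memP y).1 hy
    exact ⟨m, a, p, ha, rfl⟩
  · intro n a a' p p' h1 h2 ⟨r, hr, hr'⟩
    obtain ⟨ha, h3⟩ := (key n a p).1 h1
    obtain ⟨ha', h4⟩ := (key n a' p').1 h2
    rcases h3 with ⟨h3, h5⟩ | ⟨h3, h5⟩
    · rcases h4 with ⟨h4, h6⟩ | ⟨h4, h6⟩
      · by_contra hne
        refine hp2U (nz n) (natZ_mem_omZ n) ⟨a, hM.mem_of_mem hA ha⟩ ha ⟨a', hM.mem_of_mem hA ha'⟩ ha' (fun h7 =>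
          hne (congrArg Subtype.val h7)) (cq r) (h.le_iff.2 ((hr.trans h3).trans h02)) ⟨hE3mono n _ p r hr h5,
          hE3mono n _ p' r hr' h6⟩
      · exact (h6 r hr' (hr.trans h3)).elim
    · rcases h4 with ⟨h4, h6⟩ | ⟨h4, h6⟩
      · exact (h5 r hr (hr'.trans h4)).elim
      · rw [h3, h4]
  · intro n p
    by_cases h1 : ∃ r ≤ p, r ≤ p0
    · obtain ⟨r, hr, hr0⟩ := h1
      obtain ⟨t, ht, a, ha, h2⟩ := hp1T (nz n) (natZ_mem_omZ n) (cq r) (h.le_iff.2 (hr0.trans h01))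
      obtain ⟨t1, r1, h3, h4, h5⟩ := h.of_pair_mem ht
      have h5 : r = r1 := h.inj h5
      subst h5
      have h6 : t = cq t1 := Subtype.ext h4
      subst h6
      exact ⟨t1, h3.trans hr, a.1, (key n a.1 t1).2 ⟨ha, Or.inl ⟨h3.trans hr0, h2⟩⟩⟩
    · push Not at h1
      exact ⟨p, le_rfl, s 0, (key n _ p).2 ⟨hs 0, Or.inr ⟨rfl, h1⟩⟩⟩
  · intro n a p q hq h1
    obtain ⟨ha, h2⟩ := (key n a p).1 h1
    refine (key n a q).2 ⟨ha, ?_⟩
    rcases h2 with ⟨h2, h3⟩ | ⟨h2, h3⟩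
    · exact Or.inl ⟨hq.trans h2, hE3mono n _ p q hq h3⟩
    · exact Or.inr ⟨h2, fun r hr => h3 r (hr.trans hq)⟩
  · intro n a
    constructor
    · rintro rfl
      have hsm : s n ∈ M := hM.mem_of_mem hA (hs n)
      obtain ⟨p, hp, h1⟩ := (hE3G n ⟨s n, hsm⟩).2 rfl
      obtain ⟨r, hr, h2, h3⟩ := hG.dir p hp p0 hp0
      exact ⟨r, hr, (key n _ r).2 ⟨hs n, Or.inl ⟨h3, hE3mono n _ p r h2 h1⟩⟩⟩
    · rintro ⟨p, hp, h1⟩
      obtain ⟨ha, h2⟩ := (key n a p).1 h1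
      rcases h2 with ⟨h2, h3⟩ | ⟨h2, h3⟩
      · exact (hE3G n ⟨a, hM.mem_of_mem hA ha⟩).1 ⟨p, hp, h3⟩
      · obtain ⟨r, hr, h4, h5⟩ := hG.dir p hp p0 hp0
        exact (h3 r h4 h5).elim

/-- The value of a sequence name. -/
theorem seqNm_value (hM : CTM M) (hQ : PosetIn M Q c) (hG : GenF M c G) {A ν : ZFSet.{u}} (hA : A ∈ M)
    (hν : ν ∈ M) (h : SeqNm c A ν) : ∃ s : ℕ → ZFSet.{u}, (∀ n, s n ∈ A) ∧ seqZ s ∈ Ext M c G ∧
      ∀ n a, a = s n ↔ ∃ p ∈ G, Tr3 c ν n a p := by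
  obtain ⟨P, R, hPR⟩ := hQ.exists_PR
  have hR := hPR.hR
  have hP := hPR.hP
  have hE : CTM (Ext M c G) := ctm_Ext hM hQ hG
  have hex : ∀ n, ∃ a, ∃ p ∈ G, Tr3 c ν n a p := by
    intro n
    obtain ⟨p0, hp0⟩ := hG.ne
    have hd : hM.Dfn (fun v : Fin 1 → M => ∃ z a : M, z.1 = ZFSet.pair (⟨natZ n, hM.natZ_mem_N n⟩ : M).1 a.1 ∧
        ZFSet.pair z.1 (v 0).1 ∈ (⟨ν, hν⟩ : M).1) := by (repeat' first
            | exact DT.var _ | exact DT.last | exact DT.const _ | assumption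
            | refine Dfn.pairMem ?_ ?_ ?_ | refine Dfn.isPair ?_ ?_ ?_ | refine Dfn.mem ?_ ?_
            | refine Dfn.eqv ?_ ?_ | refine Dfn.eq ?_ ?_ | refine Dfn.subset ?_ ?_
            | refine Dfn.isEmpty ?_ | refine Dfn.isTrans ?_ | refine Dfn.isOrd ?_
            | refine Dfn.isNat ?_ | refine Dfn.and ?_ ?_ | refine Dfn.or ?_ ?_
            | refine Dfn.iff ?_ ?_ | refine Dfn.not ?_ | refine Dfn.imp ?_ ?_ | refine Dfn.all ?_
            | refine Dfn.ex ?_ | exact Dfn.false')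
    obtain ⟨q, hq, hqD⟩ := hG.gen_dfn hM hQ (D := fun y => ∃ z a : M,
        z.1 = ZFSet.pair (⟨natZ n, hM.natZ_mem_N n⟩ : M).1 a.1 ∧
        ZFSet.pair z.1 y.1 ∈ (⟨ν, hν⟩ : M).1) hd hp0 (by
      intro r hr
      obtain ⟨q, hq, a, h1⟩ := h.tot n r
      refine ⟨q, hq, fun z hz => ?_⟩
      have h2 := (hM.of_pair_mem (hM.mem_of_mem hν h1)).1
      exact ⟨⟨_, h2⟩, ⟨a, (hM.of_pair_mem h2).2⟩, rfl, by rw [hz]; exact h1⟩)
    obtain ⟨z, a, h1, h2⟩ := hqD ⟨c q, hPR.c_mem_N hM q⟩ rfl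
    refine ⟨a.1, q, hq, ?_⟩
    show ZFSet.pair (ZFSet.pair (natZ n) a.1) (c q) ∈ ν
    rw [← h1]; exact h2
  choose s hs using hex
  have hmem : ∀ n, s n ∈ A := by
    intro n
    obtain ⟨p, _, h1⟩ := hs n
    obtain ⟨m, a, q, ha, h2⟩ := h.mem _ h1
    rw [ZFSet.pair_inj, ZFSet.pair_inj] at h2
    rw [h2.1.2]; exact ha
  have hiff : ∀ n a, a = s n ↔ ∃ p ∈ G, Tr3 c ν n a p := by
    intro n a
    constructor
    · rintro rfl; exact hs n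
    · rintro ⟨p, hp, h1⟩
      obtain ⟨q, hq, h2⟩ := hs n
      obtain ⟨r, _, h3, h4⟩ := hG.dir p hp q hq
      exact h.uni n a (s n) p q h1 h2 ⟨r, h3, h4⟩
  refine ⟨s, hmem, ?_, hiff⟩
  obtain ⟨g, hg, hg'⟩ := gset_mem hM hQ hG.ne
  have hνE : ν ∈ Ext M c G := subset_Ext hM hQ hG.ne hν
  have hAE : A ∈ Ext M c G := subset_Ext hM hQ hG.ne hA
  obtain ⟨b, hb, hb'⟩ := hE.exists_sep (P := fun z => ∃ w : Ext M c G, w.1 ∈ (⟨g, hg⟩ : Ext M c G).1 ∧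
      ZFSet.pair z.1 w.1 ∈ (⟨ν, hνE⟩ : Ext M c G).1) (by (repeat' first
          | exact DT.var _ | exact DT.last | exact DT.const _ | assumption
          | refine Dfn.pairMem ?_ ?_ ?_ | refine Dfn.isPair ?_ ?_ ?_ | refine Dfn.mem ?_ ?_
          | refine Dfn.eqv ?_ ?_ | refine Dfn.eq ?_ ?_ | refine Dfn.subset ?_ ?_
          | refine Dfn.isEmpty ?_ | refine Dfn.isTrans ?_ | refine Dfn.isOrd ?_
          | refine Dfn.isNat ?_ | refine Dfn.and ?_ ?_ | refine Dfn.or ?_ ?_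
          | refine Dfn.iff ?_ ?_ | refine Dfn.not ?_ | refine Dfn.imp ?_ ?_ | refine Dfn.all ?_
          | refine Dfn.ex ?_ | exact Dfn.false')) (hE.prod_mem hE.omZ_mem hAE)
  have : seqZ s = b := by
    ext z
    rw [mem_seqZ, hb']
    constructor
    · rintro ⟨n, rfl⟩
      obtain ⟨p, hp, h1⟩ := hs n
      have hzE : ZFSet.pair (natZ n) (s n) ∈ Ext M c G := hE.pair_mem (hE.natZ_mem_N n) (hE.mem_of_mem hAE (hmem n))
      refine ⟨?_, hzE, ⟨c p, (hE.of_pair_mem (hE.mem_of_mem hνE h1)).2⟩, (hg' _).2 ⟨p, hp, rfl⟩, h1⟩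
      rw [ZFSet.pair_mem_prod]; exact ⟨natZ_mem_omZ n, hmem n⟩
    · rintro ⟨h1, _, w, hw, h2⟩
      obtain ⟨p, hp, hwp⟩ := (hg' _).1 hw
      rw [ZFSet.mem_prod] at h1
      obtain ⟨x, hx, a, ha, rfl⟩ := h1
      obtain ⟨n, rfl⟩ := mem_omZ.1 hx
      rw [hwp] at h2
      exact ⟨n, by rw [(hiff n a).2 ⟨p, hp, h2⟩]⟩
  rw [this]; exact hb

end Pool.Agent.H52.GX
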