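import Pool.Agent.H52.GX.Atom
import Pool.Agent.H17.Omega.LSa

/-!
# Generic extensions: the forcing relation, definability, truth lemma
-/

set_option autoImplicit false
set_option linter.unusedVariables false
set_option linter.unusedSectionVars false
set_option linter.unusedSimpArgs false

universe u v w

namespace Pool.Agent.H52.GX

open Pool.Agent.H17.Omega Name CTM

variable {Q : Type u} [PartialOrder Q] {M : Set ZFSet.{u}} {c : Q → ZFSet.{u}} {G : Set Q}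

/-- The forcing relation of the model `M`: `p` forces `φ` in the extension, for the names `f i`. -/
def Fc (M : Set ZFSet.{u}) (c : Q → ZFSet.{u}) : Fml → (ℕ → M) → Q → Prop
  | .mem i j, f, p => fmem (nm c (f i).1) (nm c (f j).1) p
  | .eq i j, f, p => feq (nm c (f i).1) (nm c (f j).1) p
  | .bot, _, _ => False
  | .imp φ ψ, f, p => ∀ q ≤ p, Fc M c φ f q → Fc M c ψ f q
  | .and φ ψ, f, p => Fc M c φ f p ∧ Fc M c ψ f p
  | .or φ ψ, f, p => ∀ q ≤ p, ∃ r ≤ q, Fc M c φ f r ∨ Fc M c ψ f r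
  | .all k φ, f, p => ∀ x : M, Fc M c φ (upd f k x) p
  | .ex k φ, f, p => ∀ q ≤ p, ∃ r ≤ q, ∃ x : M, Fc M c φ (upd f k x) r

theorem Fc.mono {φ : Fml} : ∀ {f : ℕ → M} {p q : Q}, q ≤ p → Fc M c φ f p → Fc M c φ f q := by
  induction φ with
  | mem i j => intro f p q h hf; exact Name.fmem_mono h hf
  | eq i j => intro f p q h hf; exact Name.feq_mono h hf
  | bot => intro f p q h hf; exact hf
  | imp φ ψ ih1 ih2 => intro f p q h hf r hr; exact hf r (hr.trans h)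
  | and φ ψ ih1 ih2 => intro f p q h hf; exact ⟨ih1 h hf.1, ih2 h hf.2⟩
  | or φ ψ ih1 ih2 => intro f p q h hf r hr; exact hf r (hr.trans h)
  | all k φ ih => intro f p q h hf x; exact ih h (hf x)
  | ex k φ ih => intro f p q h hf r hr; exact hf r (hr.trans h)

theorem Fc.reg {φ : Fml} : ∀ {f : ℕ → M} {p : Q},
    (∀ q ≤ p, ∃ r ≤ q, Fc M c φ f r) → Fc M c φ f p := by
  induction φ with
  | mem i j => intro f p h; exact Name.fmem_reg h
  | eq i j => intro f p h; exact Name.feq_reg h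
  | bot => intro f p h; obtain ⟨r, _, h'⟩ := h p le_rfl; exact h'
  | imp φ ψ ih1 ih2 =>
    intro f p h q hq ha
    refine ih2 fun r hr => ?_
    obtain ⟨s, hs, h'⟩ := h r (hr.trans hq)
    exact ⟨s, hs, h' s le_rfl (Fc.mono (hs.trans hr) ha)⟩
  | and φ ψ ih1 ih2 =>
    intro f p h
    exact ⟨ih1 fun q hq => (h q hq).imp fun r hr => ⟨hr.1, hr.2.1⟩,
      ih2 fun q hq => (h q hq).imp fun r hr => ⟨hr.1, hr.2.2⟩⟩
  | or φ ψ ih1 ih2 =>
    intro f p h q hq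
    obtain ⟨r, hr, h'⟩ := h q hq
    obtain ⟨s, hs, h''⟩ := h' r le_rfl
    exact ⟨s, hs.trans hr, h''⟩
  | all k φ ih =>
    intro f p h x
    exact ih fun q hq => (h q hq).imp fun r hr => ⟨hr.1, hr.2 x⟩
  | ex k φ ih =>
    intro f p h q hq
    obtain ⟨r, hr, h'⟩ := h q hq
    obtain ⟨s, hs, h''⟩ := h' r le_rfl
    exact ⟨s, hs.trans hr, h''⟩

/-- If not forced then some extension forces the negation. -/
theorem Fc.exists_not {φ : Fml} {f : ℕ → M} {p : Q}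
    (h : ¬ Fc M c φ f p) : ∃ q ≤ p, ∀ r ≤ q, ¬ Fc M c φ f r := by
  by_contra hc
  push Not at hc
  exact h (Fc.reg hc)

/-- The forcing relation for a fixed formula is definable. -/
theorem Fc.dfn (hM : CTM M) {P R : ZFSet.{u}} (h : PR M c P R) (φ : Fml) :
    ∀ {n : ℕ} (s : (Fin n → M) → M) (g : (Fin n → M) → ℕ → M), hM.DT s → (∀ i, hM.DT (fun v => g v i)) →
      hM.Dfn (fun v => ∃ p, c p = (s v).1 ∧ Fc M c φ (g v) p) := by
  obtain ⟨FE, hFE, hFE'⟩ := exists_feqR hM h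
  obtain ⟨ME, hME, hME'⟩ := hM.exists_fmem h
  have hR := h.hR
  have hP := h.hP
  have hupd : ∀ {n : ℕ} (g : (Fin n → M) → ℕ → M) (k : ℕ), (∀ i, hM.DT (fun v => g v i)) →
      ∀ i, hM.DT (fun v : Fin (n + 1) → M =>
        upd (g (fun i => v i.castSucc)) k (v (Fin.last n)) i) := by
    intro n g k hg i
    by_cases hik : i = k
    · obtain ⟨j, hj⟩ := DT.last (hN := hM) (n := n)
      refine ⟨j, fun v f hf => ?_⟩
      rw [hj v f hf]
      beta_reduce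
      rw [hik, upd_same]
    · obtain ⟨j, hj⟩ := (hg i).lift
      refine ⟨j, fun v f hf => ?_⟩
      rw [hj v f hf]
      beta_reduce
      rw [upd_ne _ _ hik]
  induction φ with
  | mem i j =>
    intro n s g hs hg
    have h1 : hM.Dfn (fun v => (s v).1 ∈ (⟨P, hP⟩ : M).1 ∧ ME (s v) (g v i) (g v j)) :=
      (Dfn.mem hs (DT.const _)).and (Dfn.subst3 hME hs (hg i) (hg j))
    refine h1.congr fun v => ?_
    constructor
    · rintro ⟨h2, h3⟩
      obtain ⟨q, hq⟩ := (h.memP _).1 h2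
      exact ⟨q, hq.symm, (hME' q _ _ _ hq).1 h3⟩
    · rintro ⟨p, hp, h3⟩
      exact ⟨(h.memP _).2 ⟨p, hp.symm⟩, (hME' p _ _ _ hp.symm).2 h3⟩
  | eq i j =>
    intro n s g hs hg
    have h1 : hM.Dfn (fun v => (s v).1 ∈ (⟨P, hP⟩ : M).1 ∧ FE (s v) (g v i) (g v j)) :=
      (Dfn.mem hs (DT.const _)).and (Dfn.subst3 hFE hs (hg i) (hg j))
    refine h1.congr fun v => ?_
    constructor
    · rintro ⟨h2, h3⟩
      obtain ⟨q, hq⟩ := (h.memP _).1 h2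
      exact ⟨q, hq.symm, (hFE' q _ _ _ hq).1 h3⟩
    · rintro ⟨p, hp, h3⟩
      exact ⟨(h.memP _).2 ⟨p, hp.symm⟩, (hFE' p _ _ _ hp.symm).2 h3⟩
  | bot =>
    intro n s g hs hg
    exact Dfn.false'.congr fun v => ⟨fun h => h.elim, fun ⟨p, _, h⟩ => h⟩
  | imp φ ψ ih1 ih2 =>
    intro n s g hs hg
    have h1 : hM.Dfn (fun v => (s v).1 ∈ (⟨P, hP⟩ : M).1 ∧ ∀ w : M,
        ZFSet.pair w.1 (s v).1 ∈ (⟨R, hR⟩ : M).1 → (∃ p, c p = w.1 ∧ Fc M c φ (g v) p) →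
        ∃ p, c p = w.1 ∧ Fc M c ψ (g v) p) := by
      refine (Dfn.mem hs (DT.const _)).and (Dfn.all (Dfn.imp
        (Dfn.pairMem DT.last hs.lift (DT.const _)) (Dfn.imp ?_ ?_)))
      · exact ih1 (fun v => v (Fin.last n)) (fun v => g (fun i => v i.castSucc)) DT.last fun i => (hg i).lift
      · exact ih2 (fun v => v (Fin.last n)) (fun v => g (fun i => v i.castSucc)) DT.last fun i => (hg i).lift
    refine h1.congr fun v => ?_
    constructor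
    · rintro ⟨h2, h3⟩
      obtain ⟨q, hq⟩ := (h.memP _).1 h2
      refine ⟨q, hq.symm, fun r hr h4 => ?_⟩
      obtain ⟨r', h5, h6⟩ := h3 ⟨c r, h.c_mem_N hM r⟩ (by rw [hq]; exact h.le_iff.2 hr) ⟨r, rfl, h4⟩
      rw [← h.inj h5]; exact h6
    · rintro ⟨p, hp, h3⟩
      refine ⟨(h.memP _).2 ⟨p, hp.symm⟩, fun w hw h4 => ?_⟩
      obtain ⟨r, hr, h5⟩ := h4
      refine ⟨r, hr, h3 r ?_ h5⟩
      rw [← hr, ← hp] at hw
      exact h.le_iff.1 hw
  | and φ ψ ih1 ih2 =>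
    intro n s g hs hg
    refine ((ih1 s g hs hg).and (ih2 s g hs hg)).congr fun v => ?_
    constructor
    · rintro ⟨⟨p, hp, h1⟩, q, hq, h2⟩
      rw [h.inj (hq.trans hp.symm)] at h2
      exact ⟨p, hp, h1, h2⟩
    · rintro ⟨p, hp, h1, h2⟩
      exact ⟨⟨p, hp, h1⟩, p, hp, h2⟩
  | or φ ψ ih1 ih2 =>
    intro n s g hs hg
    have h1 : hM.Dfn (fun v => (s v).1 ∈ (⟨P, hP⟩ : M).1 ∧ ∀ w : M,
        ZFSet.pair w.1 (s v).1 ∈ (⟨R, hR⟩ : M).1 → ∃ w' : M, ZFSet.pair w'.1 w.1 ∈ (⟨R, hR⟩ : M).1 ∧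
        ((∃ p, c p = w'.1 ∧ Fc M c φ (g v) p) ∨ ∃ p, c p = w'.1 ∧ Fc M c ψ (g v) p)) := by
      refine (Dfn.mem hs (DT.const _)).and (Dfn.all (Dfn.imp
        (Dfn.pairMem DT.last hs.lift (DT.const _)) (Dfn.ex (Dfn.and
          (Dfn.pairMem DT.last (DT.last).lift (DT.const _)) (Dfn.or ?_ ?_)))))
      · exact ih1 (fun v => v (Fin.last (n + 1))) (fun v => g (fun i => v i.castSucc.castSucc)) DT.last
          fun i => (hg i).lift.lift
      · exact ih2 (fun v => v (Fin.last (n + 1))) (fun v => g (fun i => v i.castSucc.castSucc)) DT.last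
          fun i => (hg i).lift.lift
    refine h1.congr fun v => ?_
    constructor
    · rintro ⟨h2, h3⟩
      obtain ⟨q, hq⟩ := (h.memP _).1 h2
      refine ⟨q, hq.symm, fun r hr => ?_⟩
      obtain ⟨w', h4, h5⟩ := h3 ⟨c r, h.c_mem_N hM r⟩ (by rw [hq]; exact h.le_iff.2 hr)
      rcases h5 with ⟨p, hp, h6⟩ | ⟨p, hp, h6⟩
      · rw [← hp] at h4
        exact ⟨p, h.le_iff.1 h4, Or.inl h6⟩
      · rw [← hp] at h4
        exact ⟨p, h.le_iff.1 h4, Or.inr h6⟩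
    · rintro ⟨p, hp, h3⟩
      refine ⟨(h.memP _).2 ⟨p, hp.symm⟩, fun w hw => ?_⟩
      obtain ⟨w1, p1, h4, h5, h6⟩ := h.of_pair_mem hw
      rw [← hp] at h6
      have h6 := h.inj h6
      subst h6
      obtain ⟨r, hr, h7⟩ := h3 w1 h4
      refine ⟨⟨c r, h.c_mem_N hM r⟩, by rw [h5]; exact h.le_iff.2 hr, ?_⟩
      rcases h7 with h7 | h7
      · exact Or.inl ⟨r, rfl, h7⟩
      · exact Or.inr ⟨r, rfl, h7⟩
  | all k φ ih =>
    intro n s g hs hg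
    have h1 : hM.Dfn (fun v => (s v).1 ∈ (⟨P, hP⟩ : M).1 ∧ ∀ x : M,
        ∃ p, c p = (s v).1 ∧ Fc M c φ (upd (g v) k x) p) := by
      refine (Dfn.mem hs (DT.const _)).and (Dfn.all ?_)
      exact ih (fun v => s (fun i => v i.castSucc))
        (fun v => upd (g (fun i => v i.castSucc)) k (v (Fin.last n))) hs.lift (hupd g k hg)
    refine h1.congr fun v => ?_
    constructor
    · rintro ⟨h2, h3⟩
      obtain ⟨q, hq⟩ := (h.memP _).1 h2
      refine ⟨q, hq.symm, fun x => ?_⟩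
      obtain ⟨p, hp, h4⟩ := h3 x
      rw [h.inj (hp.trans hq)] at h4
      exact h4
    · rintro ⟨p, hp, h3⟩
      exact ⟨(h.memP _).2 ⟨p, hp.symm⟩, fun x => ⟨p, hp, h3 x⟩⟩
  | ex k φ ih =>
    intro n s g hs hg
    have h1 : hM.Dfn (fun v => (s v).1 ∈ (⟨P, hP⟩ : M).1 ∧ ∀ w : M,
        ZFSet.pair w.1 (s v).1 ∈ (⟨R, hR⟩ : M).1 → ∃ w' : M, ZFSet.pair w'.1 w.1 ∈ (⟨R, hR⟩ : M).1 ∧
        ∃ x : M, ∃ p, c p = w'.1 ∧ Fc M c φ (upd (g v) k x) p) := by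
      refine (Dfn.mem hs (DT.const _)).and (Dfn.all (Dfn.imp
        (Dfn.pairMem DT.last hs.lift (DT.const _)) (Dfn.ex (Dfn.and
          (Dfn.pairMem DT.last (DT.last).lift (DT.const _)) (Dfn.ex ?_)))))
      exact ih (fun v => v (Fin.last (n + 1)).castSucc)
        (fun v => upd (g (fun i => v i.castSucc.castSucc.castSucc)) k (v (Fin.last (n + 2)))) (DT.last).lift
        (hupd (fun v => g (fun i => v i.castSucc.castSucc)) k fun i => (hg i).lift.lift)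
    refine h1.congr fun v => ?_
    constructor
    · rintro ⟨h2, h3⟩
      obtain ⟨q, hq⟩ := (h.memP _).1 h2
      refine ⟨q, hq.symm, fun r hr => ?_⟩
      obtain ⟨w', h4, x, p, hp, h5⟩ := h3 ⟨c r, h.c_mem_N hM r⟩ (by rw [hq]; exact h.le_iff.2 hr)
      rw [← hp] at h4
      exact ⟨p, h.le_iff.1 h4, x, h5⟩
    · rintro ⟨p, hp, h3⟩
      refine ⟨(h.memP _).2 ⟨p, hp.symm⟩, fun w hw => ?_⟩
      obtain ⟨w1, p1, h4, h5, h6⟩ := h.of_pair_mem hw
      rw [← hp] at h6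
      have h6 := h.inj h6
      subst h6
      obtain ⟨r, hr, x, h7⟩ := h3 w1 h4
      exact ⟨⟨c r, h.c_mem_N hM r⟩, by rw [h5]; exact h.le_iff.2 hr, x, r, rfl, h7⟩

/-- Generic filters decide formulas. -/
theorem Fc.decide (hM : CTM M) (hQ : PosetIn M Q c) (hG : GenF M c G) (φ : Fml) (f : ℕ → M) :
    ∃ p ∈ G, Fc M c φ f p ∨ ∀ r ≤ p, ¬ Fc M c φ f r := by
  obtain ⟨P, R, h⟩ := hQ.exists_PR
  have hR := h.hR
  have hD : hM.Dfn (fun v : Fin 1 → M => (∃ p, c p = (v 0).1 ∧ Fc M c φ f p) ∨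
      ∀ w : M, ZFSet.pair w.1 (v 0).1 ∈ (⟨R, hR⟩ : M).1 → ¬ ∃ p, c p = w.1 ∧ Fc M c φ f p) := by
    refine Dfn.or ?_ (Dfn.all (Dfn.imp (Dfn.pairMem DT.last (DT.var _) (DT.const _)) (Dfn.not ?_)))
    · exact Fc.dfn hM h φ (fun v => v 0) (fun v => f) (DT.var _) fun i => DT.const _
    · exact Fc.dfn hM h φ (fun v => v 1) (fun v => f) (DT.var _) fun i => DT.const _
  obtain ⟨p0, hp0⟩ := hG.ne
  obtain ⟨q, hq, hqD⟩ := hG.gen_dfn hM hQ (D := fun w => (∃ p, c p = w.1 ∧ Fc M c φ f p) ∨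
      ∀ w' : M, ZFSet.pair w'.1 w.1 ∈ (⟨R, hR⟩ : M).1 → ¬ ∃ p, c p = w'.1 ∧ Fc M c φ f p) hD hp0 (by
    intro r hr
    by_cases h1 : Fc M c φ f r
    · exact ⟨r, le_rfl, fun z hz => Or.inl ⟨r, hz.symm, h1⟩⟩
    · obtain ⟨q, hq, h2⟩ := Fc.exists_not h1
      refine ⟨q, hq, fun z hz => Or.inr fun w hw => ?_⟩
      rintro ⟨p, hp, h3⟩
      rw [← hp, hz] at hw
      exact h2 p (h.le_iff.1 hw) h3)
  refine ⟨q, hq, ?_⟩
  rcases hqD ⟨c q, h.c_mem_N hM q⟩ rfl with ⟨p, hp, h1⟩ | h1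
  · rw [h.inj hp] at h1; exact Or.inl h1
  · exact Or.inr fun r hr h2 => h1 ⟨c r, h.c_mem_N hM r⟩ (h.le_iff.2 hr) ⟨r, rfl, h2⟩

/-- The same for existential quantifiers: a witness. -/
theorem Fc.witness (hM : CTM M) (hQ : PosetIn M Q c) (hG : GenF M c G) (k : ℕ) (φ : Fml) (f : ℕ → M)
    {p : Q} (hp : p ∈ G) (h : Fc M c (.ex k φ) f p) : ∃ x : M, ∃ q ∈ G, Fc M c φ (upd f k x) q := by
  obtain ⟨P, R, hPR⟩ := hQ.exists_PR
  have hD : hM.Dfn (fun v : Fin 1 → M => ∃ x : M, ∃ p, c p = (v 0).1 ∧ Fc M c φ (upd f k x) p) := by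
    refine Dfn.ex ?_
    refine Fc.dfn hM hPR φ (fun v => v 0) (fun v => upd f k (v 1)) (DT.var _) fun i => ?_
    by_cases hik : i = k
    · obtain ⟨j, hj⟩ := DT.var (hN := hM) (n := 2) 1
      refine ⟨j, fun v f hf => ?_⟩
      rw [hj v f hf]
      beta_reduce
      rw [hik, upd_same]
    · obtain ⟨j, hj⟩ := DT.const (hN := hM) (n := 2) (f i)
      refine ⟨j, fun v f hf => ?_⟩
      rw [hj v f hf]
      beta_reduce
      rw [upd_ne _ _ hik]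
  obtain ⟨q, hq, hqD⟩ := hG.gen_dfn hM hQ (D := fun w => ∃ x : M, ∃ p, c p = w.1 ∧
      Fc M c φ (upd f k x) p) hD hp (by
    intro r hr
    obtain ⟨q, hq, x, h1⟩ := h r hr
    exact ⟨q, hq, fun z hz => ⟨x, q, hz.symm, h1⟩⟩)
  obtain ⟨x, p', hp', h1⟩ := hqD ⟨c q, hPR.c_mem_N hM q⟩ rfl
  rw [hPR.inj hp'] at h1
  exact ⟨x, q, hq, h1⟩

/-- The value of a name in `M` as an element of `M[G]`. -/
noncomputable def evE (M : Set ZFSet.{u}) (c : Q → ZFSet.{u}) (G : Set Q) (x : M) : Ext M c G :=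
  ⟨ev c G x.1, x.1, x.2, rfl⟩

theorem evE_surj (x : Ext M c G) : ∃ y, evE M c G y = x := by
  obtain ⟨x, y, hy, rfl⟩ := x
  exact ⟨⟨y, hy⟩, rfl⟩

/-- The truth lemma. -/
theorem truth (hM : CTM M) (hQ : PosetIn M Q c) (hG : GenF M c G) (φ : Fml) : ∀ f : ℕ → M,
    (Sat (SMem (Ext M c G)) φ (fun i => evE M c G (f i)) ↔ ∃ p ∈ G, Fc M c φ f p) := by
  have hs : ∀ (f : ℕ → M) (k : ℕ) (x : M), (fun i => evE M c G (upd f k x i)) =
      upd (fun i => evE M c G (f i)) k (evE M c G x) := fun f k x =>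
    upd_comp (evE M c G) f k x
  induction φ with
  | mem i j => intro f; exact fmem_truth hM hQ hG (f i).2 (f j).2
  | eq i j =>
    intro f
    show evE M c G (f i) = evE M c G (f j) ↔ _
    rw [Subtype.ext_iff]
    exact feq_truth hM hQ hG (f i).2 (f j).2
  | bot =>
    intro f
    exact ⟨fun h => h.elim, fun ⟨p, _, h⟩ => h⟩
  | imp φ ψ ih1 ih2 =>
    intro f
    constructor
    · intro h
      obtain ⟨p, hp, h1 | h1⟩ := Fc.decide hM hQ hG φ f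
      · obtain ⟨q, hq, h2⟩ := (ih2 f).1 (h ((ih1 f).2 ⟨p, hp, h1⟩))
        exact ⟨q, hq, fun r hr _ => Fc.mono hr h2⟩
      · exact ⟨p, hp, fun r hr h2 => (h1 r hr h2).elim⟩
    · rintro ⟨p, hp, h1⟩ h2
      obtain ⟨q, hq, h3⟩ := (ih1 f).1 h2
      obtain ⟨r, hr, h4, h5⟩ := hG.dir p hp q hq
      exact (ih2 f).2 ⟨r, hr, h1 r h4 (Fc.mono h5 h3)⟩
  | and φ ψ ih1 ih2 =>
    intro f
    constructor
    · rintro ⟨h1, h2⟩
      obtain ⟨p, hp, h3⟩ := (ih1 f).1 h1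
      obtain ⟨q, hq, h4⟩ := (ih2 f).1 h2
      obtain ⟨r, hr, h5, h6⟩ := hG.dir p hp q hq
      exact ⟨r, hr, Fc.mono h5 h3, Fc.mono h6 h4⟩
    · rintro ⟨p, hp, h1, h2⟩
      exact ⟨(ih1 f).2 ⟨p, hp, h1⟩, (ih2 f).2 ⟨p, hp, h2⟩⟩
  | or φ ψ ih1 ih2 =>
    intro f
    constructor
    · rintro (h1 | h1)
      · obtain ⟨p, hp, h3⟩ := (ih1 f).1 h1
        exact ⟨p, hp, fun q hq => ⟨q, le_rfl, Or.inl (Fc.mono hq h3)⟩⟩
      · obtain ⟨p, hp, h3⟩ := (ih2 f).1 h1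
        exact ⟨p, hp, fun q hq => ⟨q, le_rfl, Or.inr (Fc.mono hq h3)⟩⟩
    · rintro ⟨p, hp, h1⟩
      obtain ⟨q, hq, h2 | h2⟩ := Fc.decide hM hQ hG φ f
      · exact Or.inl ((ih1 f).2 ⟨q, hq, h2⟩)
      · obtain ⟨q', hq', h3 | h3⟩ := Fc.decide hM hQ hG ψ f
        · exact Or.inr ((ih2 f).2 ⟨q', hq', h3⟩)
        · exfalso
          obtain ⟨r, hr, h4, h5⟩ := hG.dir p hp q hq
          obtain ⟨r', hr', h6, h7⟩ := hG.dir r hr q' hq'
          obtain ⟨s, hs, h8 | h8⟩ := h1 r' (h6.trans h4)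
          · exact h2 s (hs.trans (h6.trans h5)) h8
          · exact h3 s (hs.trans h7) h8
  | all k φ ih =>
    intro f
    constructor
    · intro h
      obtain ⟨p, hp, h1 | h1⟩ := Fc.decide hM hQ hG (.ex k (.imp φ .bot)) f
      · exfalso
        obtain ⟨x, q, hq, h2⟩ := Fc.witness hM hQ hG k (.imp φ .bot) f hp h1
        have h3 := h (evE M c G x)
        rw [← hs, ih] at h3
        obtain ⟨q', hq', h3⟩ := h3
        obtain ⟨r, hr, h4, h5⟩ := hG.dir q hq q' hq'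
        exact h2 r h4 (Fc.mono h5 h3)
      · refine ⟨p, hp, fun x => ?_⟩
        refine Fc.reg fun q hq => ?_
        by_contra hc
        push Not at hc
        exact h1 q hq fun r hr => ⟨r, le_rfl, x, fun s hs h2 => hc s (hs.trans hr) h2⟩
    · rintro ⟨p, hp, h1⟩ x
      obtain ⟨y, rfl⟩ := evE_surj x
      rw [← hs, ih]
      exact ⟨p, hp, h1 y⟩
  | ex k φ ih =>
    intro f
    constructor
    · rintro ⟨x, h⟩
      obtain ⟨y, rfl⟩ := evE_surj x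
      rw [← hs, ih] at h
      obtain ⟨p, hp, h1⟩ := h
      exact ⟨p, hp, fun q hq => ⟨q, le_rfl, y, Fc.mono hq h1⟩⟩
    · rintro ⟨p, hp, h1⟩
      obtain ⟨x, q, hq, h2⟩ := Fc.witness hM hQ hG k φ f hp h1
      refine ⟨evE M c G x, ?_⟩
      rw [← hs, ih]
      exact ⟨q, hq, h2⟩

/-- Forcing in terms of generic filters. -/
theorem Fc.iff_generic (hM : CTM M) (hQ : PosetIn M Q c) (φ : Fml) (f : ℕ → M) (p : Q) :
    Fc M c φ f p ↔ ∀ G, GenF M c G → p ∈ G → Sat (SMem (Ext M c G)) φ (fun i => evE M c G (f i)) := by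
  constructor
  · intro h G hG hp
    exact (truth hM hQ hG φ f).2 ⟨p, hp, h⟩
  · intro h
    by_contra hc
    obtain ⟨q, hq, h1⟩ := Fc.exists_not hc
    obtain ⟨G, hG, hqG⟩ := exists_genF hM.countable c q
    obtain ⟨r, hr, h2⟩ := (truth hM hQ hG φ f).1 (h G hG (hG.up _ hqG _ hq))
    obtain ⟨s, hs, h3, h4⟩ := hG.dir q hqG r hr
    exact h1 s h3 (Fc.mono h4 h2)

end Pool.Agent.H52.GX
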